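import Pool.Graph.R_pool_sql_team_seeded_63374d34.N323.PV.CAL
import Pool.Graph.R_pool_sql_team_seeded_63374d34.N951.PV.PT2

/-!
# The classes modulo `4` of the points of a quadratic twist

The library file `N323/PV/CAL.lean` (project PV of helper922, part by helper323) treats the points of
`y ^ 2 = x ^ 3 + a x + b` over a field in which `2` is a uniformiser. Here are the points of the twists
`e y ^ 2 = x ^ 3 + a x + b`, `e = 1` modulo `4` or `e = 2` modulo `4`.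
-/

set_option autoImplicit false

open Polynomial

namespace Pool.Agent.H71.SH

open Pool.Agent.N922.PQ Pool.Agent.N323.PV

/-- The class of `h` is in the local image of the twist `e y ^ 2 = x ^ 3 + a x + b`. -/
def PLt (F : Type) [Field F] (a b : ℤ) (e : F) (h : F[X]) : Prop :=
  (∃ g : F[X], ff F a b ∣ h - g ^ 2) ∨
  ∃ x y : F, y ≠ 0 ∧ e * y ^ 2 = x ^ 3 + a * x + b ∧
    ∃ g : F[X], ff F a b ∣ C e * (C x - X) * h - g ^ 2

section Ring

variable {O : Type*} [CommRing O]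

/-- squares modulo `f` in the ring of integers, with arbitrary coefficients -/
lemma ringA' (h2 : ∀ u : O, 2 ∣ u ^ 2 → 2 ∣ u)
    (h0 : ∀ u w : O, 2 * u = 2 * w → u = w) (a b : ℤ) (hb : Odd b) (g₁ g₂ : O)
    (r s t t0 t1 t2 : O)
    (e0 : 1 + 4 * r = t0 ^ 2 - 2 * t1 * t2 * b)
    (e1 : 2 * g₁ + 4 * s = 2 * t0 * t1 - 2 * t1 * t2 * a - t2 ^ 2 * b)
    (e2 : 2 * g₂ + 4 * t = t1 ^ 2 + 2 * t0 * t2 - t2 ^ 2 * a) : 2 ∣ g₁ ∧ 2 ∣ g₂ := by
  obtain ⟨k, rfl⟩ := hb
  push_cast at e0 e1 e2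
  obtain ⟨u2, hu2⟩ : (2 : O) ∣ t2 := by
    apply h2
    refine ⟨t0 * t1 - t1 * t2 * a - t2 ^ 2 * k - g₁ - 2 * s, ?_⟩
    linear_combination e1
  obtain ⟨u1, hu1⟩ : (2 : O) ∣ t1 := by
    apply h2
    refine ⟨g₂ + 2 * t - t0 * t2 + u2 * t2 * a, ?_⟩
    linear_combination -e2 + (a * t2) * hu2
  constructor
  · refine ⟨t0 * u1 - 2 * u1 * u2 * a - u2 ^ 2 * (2 * k + 1) - s, ?_⟩
    apply h0
    rw [hu1, hu2] at e1
    linear_combination e1
  · refine ⟨u1 ^ 2 + t0 * u2 - u2 ^ 2 * a - t, ?_⟩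
    apply h0
    rw [hu1, hu2] at e2
    linear_combination e2

end Ring

section Val

variable {F Γ : Type} [Field F] [CharZero F] [LinearOrderedCommGroupWithZero Γ] (v : Valuation F Γ)

/-- the case of a point near the origin of the group: the computation -/
lemma caseC_core (hv2 : v 2 < 1) (hv : ∀ x : F, v x < 1 → v x ≤ v 2) {a b : ℤ} (hb : Odd b)
    (g₁ g₂ : ℤ) {r s t x z ζ δ t0 t1 t2 : F} (hr : v r ≤ 1) (hs : v s ≤ 1) (ht : v t ≤ 1)
    (hζ1 : v ζ ≤ 1) (hδ1 : v δ ≤ 1) (hz : z ^ 2 = 4 * ζ) (hxz : x * (4 * ζ) = 1 + 4 * δ)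
    (e0 : x * (1 + 4 * r) + (2 * g₂ + 4 * t) * b = t0 ^ 2 - 2 * t1 * t2 * b)
    (e1 : x * (2 * g₁ + 4 * s) - (1 + 4 * r) + (2 * g₂ + 4 * t) * a =
      2 * t0 * t1 - 2 * t1 * t2 * a - t2 ^ 2 * b)
    (e2 : x * (2 * g₂ + 4 * t) - (2 * g₁ + 4 * s) = t1 ^ 2 + 2 * t0 * t2 - t2 ^ 2 * a) :
    Even g₁ ∧ Even g₂ := by
  let r' : v.integer := ⟨r, hr⟩
  let s' : v.integer := ⟨s, hs⟩
  let t' : v.integer := ⟨t, ht⟩
  let ζ' : v.integer := ⟨ζ, hζ1⟩
  let d' : v.integer := ⟨δ, hδ1⟩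
  let R : v.integer := r' + d' * (1 + 4 * r') + ζ' * (2 * (g₂ : v.integer) + 4 * t') * (b : v.integer)
  let S : v.integer := s' + d' * (2 * (g₁ : v.integer) + 4 * s') - ζ' * (1 + 4 * r') +
    ζ' * (2 * (g₂ : v.integer) + 4 * t') * (a : v.integer)
  let T : v.integer := t' + d' * (2 * (g₂ : v.integer) + 4 * t') - ζ' * (2 * (g₁ : v.integer) + 4 * s')
  have hR : (R : F) = r + δ * (1 + 4 * r) + ζ * (2 * g₂ + 4 * t) * b := rfl
  have hS : (S : F) = s + δ * (2 * g₁ + 4 * s) - ζ * (1 + 4 * r) + ζ * (2 * g₂ + 4 * t) * a := rfl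
  have hT : (T : F) = t + δ * (2 * g₂ + 4 * t) - ζ * (2 * g₁ + 4 * s) := rfl
  refine caseA v hv2 hv (a := a) (b := b) hb g₁ g₂ (r := R) (s := S) (t := T)
    (t0 := t0 * z) (t1 := t1 * z) (t2 := t2 * z) R.2 S.2 T.2 ?_ ?_ ?_
  · rw [hR]
    linear_combination z ^ 2 * e0 + (1 + 4 * r) * (-hxz) - (x * (1 + 4 * r) +
      (2 * g₂ + 4 * t) * b) * hz
  · rw [hS]
    linear_combination z ^ 2 * e1 + (2 * g₁ + 4 * s) * (-hxz) - (x * (2 * g₁ + 4 * s) -
      (1 + 4 * r) + (2 * g₂ + 4 * t) * a) * hz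
  · rw [hT]
    linear_combination z ^ 2 * e2 + (2 * g₂ + 4 * t) * (-hxz) - (x * (2 * g₂ + 4 * t) -
      (2 * g₁ + 4 * s)) * hz

/-- The value of the cubic polynomial at a point which is not integral. -/
lemma cubic_far (hv2 : v 2 < 1) (hv : ∀ x : F, v x < 1 → v x ≤ v 2) (a b : ℤ) {x : F}
    (hx : 1 < v x) : ∃ i' κ : F, v i' ≤ 1 ∧ v κ ≤ 1 ∧ x * (2 * i') = 1 ∧ v (1 + 4 * κ) = 1 ∧
      x ^ 3 + a * x + b = x ^ 3 * (1 + 4 * κ) := by
  have hx0 : x ≠ 0 := by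
    rintro rfl
    rw [map_zero] at hx
    exact absurd hx (not_lt.2 zero_le)
  have hinv : v (1 / x) < 1 := by
    rw [map_div₀, map_one]
    exact (div_lt_one₀ (lt_trans zero_lt_one hx)).2 hx
  obtain ⟨i', hi1, hi2⟩ := half v (hv _ hinv)
  have h1 : x * (2 * i') = 1 := by
    rw [← hi2]
    field_simp
  let j : v.integer := ⟨i', hi1⟩
  let K : v.integer := (a : v.integer) * j ^ 2 + 2 * (b : v.integer) * j ^ 3
  have hK : (K : F) = a * i' ^ 2 + 2 * b * i' ^ 3 := rfl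
  refine ⟨i', K, hi1, K.2, h1, ?_, ?_⟩
  · apply Valuation.map_one_add_of_lt
    have h4 : (4 : F) = 2 * 2 := by norm_num
    rw [h4, mul_assoc, map_mul, map_mul]
    have h5 : v 2 * v (K : F) ≤ 1 := mul_le_one' hv2.le K.2
    calc v 2 * (v 2 * v (K : F)) ≤ v 2 * 1 := mul_le_mul' le_rfl h5
      _ = v 2 := mul_one _
      _ < 1 := hv2
  · rw [hK]
    have h2 : x ^ 2 * (4 * i' ^ 2) = 1 := by
      have : x ^ 2 * (4 * i' ^ 2) = (x * (2 * i')) ^ 2 := by ring
      rw [this, h1, one_pow]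
    have h3 : x ^ 3 * (8 * i' ^ 3) = 1 := by
      have : x ^ 3 * (8 * i' ^ 3) = (x * (2 * i')) ^ 3 := by ring
      rw [this, h1, one_pow]
    linear_combination (-(a : F) * x) * h2 - (b : F) * h3

/-- the equations of a square from the divisibility, for `e (x - X) h` -/
lemma eqs {a b : ℤ} (c : F) (x g₁ g₂ r s t : F) (g : F[X])
    (hg : ff F a b ∣ C c * (C x - X) * (1 + C 2 * (C g₁ * X + C g₂ * X ^ 2) +
      C 4 * (C r + C s * X + C t * X ^ 2)) - g ^ 2) : ∃ t0 t1 t2 : F,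
    c * (x * (1 + 4 * r) + (2 * g₂ + 4 * t) * b) = t0 ^ 2 - 2 * t1 * t2 * b ∧
    c * (x * (2 * g₁ + 4 * s) - (1 + 4 * r) + (2 * g₂ + 4 * t) * a) =
      2 * t0 * t1 - 2 * t1 * t2 * a - t2 ^ 2 * b ∧
    c * (x * (2 * g₂ + 4 * t) - (2 * g₁ + 4 * s)) = t1 ^ 2 + 2 * t0 * t2 - t2 ^ 2 * a := by
  apply sq_form (a := a) (b := b) _ _ _ g
  have h1 : ff F a b ∣ ff F a b * C (c * (2 * g₂ + 4 * t)) := dvd_mul_right _ _
  have h2 := dvd_add hg h1
  convert h2 using 1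
  unfold ff
  simp only [map_add, map_sub, map_mul, map_ofNat, map_one]
  ring

/-- The classes of the points of the twist by `e = 1` modulo `4`. -/
theorem cal_one (hv2 : v 2 < 1) (hv : ∀ x : F, v x < 1 → v x ≤ v 2) {a b : ℤ} (ha : Odd a)
    (hab : (4 : ℤ) ∣ a - b) {e : ℤ} (he : e % 4 = 1) (g₁ g₂ : ℤ) {r s t : F} (hr : v r ≤ 1)
    (hs : v s ≤ 1) (ht : v t ≤ 1) (hPL : PLt F a b (e : F) (pol F g₁ g₂ r s t)) :
    (Even g₁ ∧ Even g₂) ∨ ((4 : ℤ) ∣ 2 * g₁ - (1 - a) ∧ (4 : ℤ) ∣ 2 * g₂ - (3 - a)) := by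
  have hb : Odd b := by
    obtain ⟨k, hk⟩ := ha
    obtain ⟨l, hl⟩ := hab
    exact ⟨k - 2 * l, by omega⟩
  obtain ⟨l, hl⟩ : ∃ l : ℤ, e = 1 + 4 * l := ⟨e / 4, by omega⟩
  have hodd : Odd e := ⟨2 * l, by omega⟩
  have hve : v (e : F) = 1 := odd_one v hv2 hodd
  have he0 : (e : F) ≠ 0 := by
    intro h
    rw [h, map_zero] at hve
    exact zero_ne_one hve
  have heF : (e : F) = 1 + 4 * (l : F) := by
    rw [hl]
    push_cast
    ring
  rcases hPL with ⟨g, hg⟩ | ⟨x, y, hy, hxy, g, hg⟩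
  · left
    obtain ⟨t0, t1, t2, e0, e1, e2⟩ := sq_form (a := a) (b := b) (1 + 4 * r) (2 * g₁ + 4 * s)
      (2 * g₂ + 4 * t) g (by
        convert hg using 1
        unfold pol
        simp only [map_add, map_mul, map_ofNat, map_one]
        ring)
    exact caseA v hv2 hv hb g₁ g₂ hr hs ht e0 e1 e2
  · -- absorb `e` in the coefficients
    let r' : v.integer := ⟨r, hr⟩
    let s' : v.integer := ⟨s, hs⟩
    let t' : v.integer := ⟨t, ht⟩
    let R : v.integer := (l : v.integer) + (e : v.integer) * r'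
    let S : v.integer := 2 * (l : v.integer) * (g₁ : v.integer) + (e : v.integer) * s'
    let T : v.integer := 2 * (l : v.integer) * (g₂ : v.integer) + (e : v.integer) * t'
    have hR : (R : F) = l + e * r := rfl
    have hS : (S : F) = 2 * l * g₁ + e * s := rfl
    have hT : (T : F) = 2 * l * g₂ + e * t := rfl
    obtain ⟨t0, t1, t2, e0, e1, e2⟩ := eqs (e : F) x (g₁ : F) (g₂ : F) r s t g hg
    have f0 : x * (1 + 4 * (R : F)) + (2 * g₂ + 4 * (T : F)) * b = t0 ^ 2 - 2 * t1 * t2 * b := by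
      rw [← e0, hR, hT, heF]
      ring
    have f1 : x * (2 * g₁ + 4 * (S : F)) - (1 + 4 * (R : F)) + (2 * g₂ + 4 * (T : F)) * a =
        2 * t0 * t1 - 2 * t1 * t2 * a - t2 ^ 2 * b := by
      rw [← e1, hR, hS, hT, heF]
      ring
    have f2 : x * (2 * g₂ + 4 * (T : F)) - (2 * g₁ + 4 * (S : F)) =
        t1 ^ 2 + 2 * t0 * t2 - t2 ^ 2 * a := by
      rw [← e2, hS, hT, heF]
      ring
    by_cases hx : v x ≤ 1
    · exact caseB v hv2 hv ha hab g₁ g₂ R.2 S.2 T.2 hx f0 f1 f2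
    · rw [not_le] at hx
      left
      obtain ⟨i', κ, hi1, hκ, hxi, hk1, hf⟩ := cubic_far v hv2 hv a b hx
      have hx0 : x ≠ 0 := by
        rintro rfl
        rw [zero_mul] at hxi
        exact zero_ne_one hxi
      have hk0 : (1 + 4 * κ : F) ≠ 0 := by
        intro h
        rw [h, map_zero] at hk1
        exact zero_ne_one hk1
      -- `z = x / y`
      have hz1 : (x / y) ^ 2 * (1 + 4 * κ) = e * (2 * i') := by
        have h1 : e * y ^ 2 = x ^ 3 * (1 + 4 * κ) := hxy.trans hf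
        field_simp
        have h2 : x ^ 3 * (1 + 4 * κ) * (2 * i') = e * y ^ 2 * (2 * i') := by rw [h1]
        linear_combination h2 - (x ^ 2 * (1 + 4 * κ)) * hxi
      have hz2 : v (x / y) < 1 := by
        by_contra hc
        rw [not_lt] at hc
        have h2 : v ((x / y) ^ 2 * (1 + 4 * κ)) = v (x / y) ^ 2 := by
          rw [map_mul, hk1, mul_one, map_pow]
        have h3 : v ((e : F) * (2 * i')) < 1 := by
          rw [map_mul, hve, one_mul, map_mul]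
          calc v 2 * v i' ≤ v 2 * 1 := mul_le_mul' le_rfl hi1
            _ = v 2 := mul_one _
            _ < 1 := hv2
        rw [← hz1, h2] at h3
        exact absurd h3 (not_lt.2 (one_le_pow₀ hc))
      obtain ⟨w, hw1, hw2⟩ := half v (hv _ hz2)
      have hδ1 : v ((l - κ) / (1 + 4 * κ)) ≤ 1 := by
        rw [map_div₀, hk1, div_one]
        exact (v.map_sub _ _).trans (max_le (int_le v l) hκ)
      refine caseC_core v hv2 hv hb g₁ g₂ R.2 S.2 T.2 (x := x) (z := x / y) (ζ := w ^ 2)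
        (δ := (l - κ) / (1 + 4 * κ)) (by rw [map_pow]; exact pow_le_one₀ zero_le hw1) hδ1
        (by rw [hw2]; ring) ?_ f0 f1 f2
      have h4 : (4 : F) * w ^ 2 = (x / y) ^ 2 := by rw [hw2]; ring
      rw [h4]
      have h5 : x * (x / y) ^ 2 * (1 + 4 * κ) = e := by
        have : x * (x / y) ^ 2 * (1 + 4 * κ) = x * ((x / y) ^ 2 * (1 + 4 * κ)) := by ring
        rw [this, hz1]
        linear_combination (e : F) * hxi
      have h6 : x * (x / y) ^ 2 = e / (1 + 4 * κ) := by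
        rw [eq_div_iff hk0]
        exact h5
      rw [h6, heF]
      field_simp
      ring

/-- The classes of the points of the twist by `e = 2` modulo `4`. -/
theorem cal_two (hv2 : v 2 < 1) (hv : ∀ x : F, v x < 1 → v x ≤ v 2) {a b : ℤ}
    (ha : a % 4 = 3) (hb : Odd b) (hres : ∀ x : F, v x ≤ 1 → v (x ^ 3 + a * x + b) = 1)
    {e : ℤ} (he : e % 4 = 2) (g₁ g₂ : ℤ) {r s t : F} (hr : v r ≤ 1)
    (hs : v s ≤ 1) (ht : v t ≤ 1) (hPL : PLt F a b (e : F) (pol F g₁ g₂ r s t)) :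
    (Even g₁ ∧ Even g₂) ∨ ((4 : ℤ) ∣ 2 * g₁ - (1 - a) ∧ (4 : ℤ) ∣ 2 * g₂ - (3 - a)) := by
  obtain ⟨l, hl⟩ : ∃ l : ℤ, e = 2 * l ∧ Odd l := ⟨e / 2, by omega, by rw [Int.odd_iff]; omega⟩
  obtain ⟨hl, hlo⟩ := hl
  have hvl : v (l : F) = 1 := odd_one v hv2 hlo
  have hl0 : (l : F) ≠ 0 := by
    intro h
    rw [h, map_zero] at hvl
    exact zero_ne_one hvl
  have heF : (e : F) = 2 * (l : F) := by
    rw [hl]
    push_cast
    ring
  have h20 : (2 : F) ≠ 0 := two_ne_zero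
  have hv20 : v 2 ≠ 0 := (Valuation.ne_zero_iff v).2 h20
  have he0 : (e : F) ≠ 0 := by
    rw [heF]
    exact mul_ne_zero h20 hl0
  have hve : v (e : F) = v 2 := by rw [heF, map_mul, hvl, mul_one]
  rcases hPL with ⟨g, hg⟩ | ⟨x, y, hy, hxy, g, hg⟩
  · left
    obtain ⟨t0, t1, t2, e0, e1, e2⟩ := sq_form (a := a) (b := b) (1 + 4 * r) (2 * g₁ + 4 * s)
      (2 * g₂ + 4 * t) g (by
        convert hg using 1
        unfold pol
        simp only [map_add, map_mul, map_ofNat, map_one]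
        ring)
    exact caseA v hv2 hv hb g₁ g₂ hr hs ht e0 e1 e2
  · by_cases hx : v x ≤ 1
    · -- there are no integral points
      exfalso
      have h1 := hres x hx
      rw [← hxy, map_mul, hve, map_pow] at h1
      -- `v 2 * v y ^ 2 = 1`
      have hvy : 1 < v y := by
        by_contra hc
        rw [not_lt] at hc
        have h2 : v 2 * v y ^ 2 < 1 := by
          calc v 2 * v y ^ 2 ≤ v 2 * 1 := mul_le_mul' le_rfl (pow_le_one₀ zero_le hc)
            _ = v 2 := mul_one _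
            _ < 1 := hv2
        rw [h1] at h2
        exact lt_irrefl _ h2
      have h3 : v (1 / y) < 1 := by
        rw [map_div₀, map_one]
        exact (div_lt_one₀ (lt_trans zero_lt_one hvy)).2 hvy
      have h4 := hv _ h3
      rw [map_div₀, map_one] at h4
      have h5 : 1 ≤ v 2 * v y := by
        have hy0 : 0 < v y := lt_trans zero_lt_one hvy
        rwa [div_le_iff₀ hy0] at h4
      have h6 : v y ≤ v 2 * v y ^ 2 := by
        calc v y = 1 * v y := (one_mul _).symm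
          _ ≤ (v 2 * v y) * v y := mul_le_mul' h5 le_rfl
          _ = v 2 * v y ^ 2 := by rw [sq, mul_assoc]
      rw [h1] at h6
      exact absurd hvy (not_lt.2 h6)
    · rw [not_le] at hx
      obtain ⟨i', κ, hi1, hκ, hxi, hk1, hf⟩ := cubic_far v hv2 hv a b hx
      have hx0 : x ≠ 0 := by
        rintro rfl
        rw [zero_mul] at hxi
        exact zero_ne_one hxi
      obtain ⟨t0, t1, t2, e0, e1, e2⟩ := eqs (e : F) x (g₁ : F) (g₂ : F) r s t g hg
      obtain ⟨ν, hν⟩ : ∃ ν : F, ν = (1 + 4 * κ) * x / (e * y) := ⟨_, rfl⟩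
      have hν1 : ν ^ 2 * (e * x) = 1 + 4 * κ := by
        have h1 : e * y ^ 2 = x ^ 3 * (1 + 4 * κ) := hxy.trans hf
        rw [hν]
        field_simp
        linear_combination (-(1 + 4 * κ)) * h1
      have hν2 : ν ^ 2 * e = (1 + 4 * κ) * (2 * i') := by
        have : ν ^ 2 * e = ν ^ 2 * (e * x) * (2 * i') := by
          linear_combination (-(ν ^ 2 * e)) * hxi
        rw [this, hν1]
      let r' : v.integer := ⟨r, hr⟩
      let s' : v.integer := ⟨s, hs⟩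
      let t' : v.integer := ⟨t, ht⟩
      let j : v.integer := ⟨i', hi1⟩
      let k : v.integer := ⟨κ, hκ⟩
      let R : v.integer := r' + k * (1 + 4 * r') + (1 + 4 * k) * j * ((g₂ : v.integer) + 2 * t') *
        (b : v.integer)
      let S : v.integer := s' + k * (2 * (g₁ : v.integer) + 4 * s') -
        2 * j * (k + r' + 4 * k * r') + (1 + 4 * k) * j * ((g₂ : v.integer) + 2 * t') *
        (a : v.integer)
      let T : v.integer := t' + k * (2 * (g₂ : v.integer) + 4 * t') -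
        (1 + 4 * k) * j * ((g₁ : v.integer) + 2 * s')
      have hR : (R : F) = r + κ * (1 + 4 * r) + (1 + 4 * κ) * i' * (g₂ + 2 * t) * b := rfl
      have hS : (S : F) = s + κ * (2 * g₁ + 4 * s) - 2 * i' * (κ + r + 4 * κ * r) +
        (1 + 4 * κ) * i' * (g₂ + 2 * t) * a := rfl
      have hT : (T : F) = t + κ * (2 * g₂ + 4 * t) - (1 + 4 * κ) * i' * (g₁ + 2 * s) := rfl
      have f0 : 1 + 4 * (R : F) = (t0 * ν) ^ 2 - 2 * (t1 * ν) * (t2 * ν) * b := by
        rw [hR]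
        linear_combination ν ^ 2 * e0 - (1 + 4 * r) * hν1 - ((2 * g₂ + 4 * t) * b) * hν2
      have f1 : 2 * ((g₁ : F) - i') + 4 * (S : F) = 2 * (t0 * ν) * (t1 * ν) -
          2 * (t1 * ν) * (t2 * ν) * a - (t2 * ν) ^ 2 * b := by
        rw [hS]
        linear_combination ν ^ 2 * e1 - (2 * g₁ + 4 * s) * hν1 + (1 + 4 * r) * hν2 -
          ((2 * g₂ + 4 * t) * a) * hν2
      have f2 : 2 * (g₂ : F) + 4 * (T : F) = (t1 * ν) ^ 2 + 2 * (t0 * ν) * (t2 * ν) -
          (t2 * ν) ^ 2 * a := by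
        rw [hT]
        linear_combination ν ^ 2 * e2 - (2 * g₂ + 4 * t) * hν1 + (2 * g₁ + 4 * s) * hν2
      obtain ⟨k0, k1, k2⟩ := integral v hv2 hb f0 f1 f2 (1 + 4 * R : v.integer).2
        (2 * ((g₁ : v.integer) - j) + 4 * S : v.integer).2
        (2 * (g₂ : v.integer) + 4 * T : v.integer).2
      have h7 := ringA' (O := v.integer) (int_h2 v hv2 hv) (int_h0 v) a b hb
        ((g₁ : v.integer) - j) (g₂ : v.integer) R S T ⟨t0 * ν, k0⟩ ⟨t1 * ν, k1⟩ ⟨t2 * ν, k2⟩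
        (Subtype.ext f0) (Subtype.ext f1) (Subtype.ext f2)
      have hg2 : Even g₂ := even_of_dvd (int_h1 v hv2) h7.2
      obtain ⟨u, hu⟩ := hg2
      rcases Int.even_or_odd g₁ with h8 | ⟨u', hu'⟩
      · exact Or.inl ⟨h8, ⟨u, hu⟩⟩
      · right
        constructor <;> omega

end Val

end Pool.Agent.H71.SH
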