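import Pool.Agent.H71.SH.Main3

/-!
# A positive proportion of all elliptic curves over `ℚ`: all twists of three of the four types
-/

set_option autoImplicit false
set_option linter.all false

open Polynomial IsDedekindDomain WeierstrassCurve WeierstrassCurve.Affine NumberField
open Pool.Agent.TH115.GD
open scoped Classical IntermediateField

namespace Pool.Agent.H71.SH

open Pool.Agent.N922.PQ
open Pool.Agent.N874.PP (Tup chA chB gq tau Two Ev Sq1 U0 sW IsBeta Rt)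
open Pool.Agent.N874.PM (PLoc Lies SelR ShaR)

/-- The property of the curve `p`: no zeros modulo the primes in `T₁`, and the twists by all
squarefree integers which are not of type `t` and whose odd prime divisors `q` have the property that
the cubic polynomial has no zero modulo `q` have trivial 2-Selmer group over `M`, no points over `M`
and trivial 2-primary part of the Tate-Shafarevich group over `M`. -/
structure Good3 {M : Type} [Field M] (R : Type) [CommRing R]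
    [IsDedekindDomain R] [Algebra R M] [IsFractionRing R M] (T₁ : Finset ℤ) (t : ℤ)
    (p : ℤ × ℤ) : Prop where
  nt : ∀ q ∈ T₁, NT q p
  tw : ∀ d : ℤ, Squarefree d → ¬ HasType t d → (∀ q : ℤ, IsPr q → q ≠ 2 → q ∣ d → NT q p) →
    GoodV (M := M) R (p.1 * d ^ 2, p.2 * d ^ 3)

/-- The main theorem from the parts; with a bound of order `X ^ 5`. -/
theorem mainV3 (H : Parts2) (hLB : S_LB) (hFAM : S_FAM3) (hBAD : S_BAD)
    (hTCH : S_TCH) (hGEN : S_GEN) (hSPL : S_SPL) (hCRV : S_CRV)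
    (M : Type) [Field M] [NumberField M]
    [IsGalois ℚ M] (R : Type) [CommRing R] [IsDedekindDomain R] [Algebra R M]
    [IsFractionRing R M] [IsIntegralClosure R ℤ M] {n : ℕ}
    (hM : Module.finrank ℚ M = 2 ^ n)
    (hur : ∀ w : HeightOneSpectrum R, Ov 2 w → w.valuation M 2 = WithZero.exp (-1 : ℤ))
    (T₁ : Finset ℤ) (hT₁ : ∀ q ∈ T₁, IsPr q ∧ q ≠ 2) {t : ℤ}
    (ht : t = 1 ∨ t = -1 ∨ t = 2 ∨ t = -2) :
    ∃ (P X₀ : ℕ) (c : ℝ), 0 < c ∧ 1 ≤ P ∧ ∀ X : ℕ, X₀ ≤ X → ∀ H : ℕ, 27 * (X * P) ^ 6 ≤ H →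
      c * (X : ℝ) ^ 5 ≤ ({p : ℤ × ℤ | Crv H p.1 p.2 ∧ Good3 (M := M) R T₁ t p}.ncard : ℝ) := by
  haveI : Algebra.IsIntegral ℤ R := IsIntegralClosure.isIntegral_algebra ℤ M
  haveI : CharZero R := charZero_of R M
  obtain ⟨κ, hLB'⟩ := hLB
  obtain ⟨γ, g, δ, hG, hdeg⟩ := hGEN M
  -- the prime divisors of `δ`
  obtain ⟨T₀, hT₀, hδ₀⟩ : ∃ T : Finset ℤ, (∀ P ∈ T, IsPr P) ∧
      ∀ P : ℤ, IsPr P → P ∣ δ → P ∈ T := by
    have hf : {P : ℤ | IsPr P ∧ P ∣ δ}.Finite := by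
      refine (Set.finite_Icc (-|δ|) |δ|).subset ?_
      rintro P ⟨-, h⟩
      have h3 : |P| ≤ |δ| := Int.le_of_dvd (abs_pos.2 hG.ne) ((abs_dvd_abs P δ).2 h)
      exact abs_le.1 h3
    refine ⟨hf.toFinset, fun P hP => ?_, fun P h1 h2 => ?_⟩
    · exact (hf.mem_toFinset.1 hP).1
    · exact hf.mem_toFinset.2 ⟨h1, h2⟩
  obtain ⟨T, A, B, hTT, hT⟩ := hTCH (T₀ ∪ T₁) (fun P hP => by
    rcases Finset.mem_union.1 hP with h | h
    · exact hT₀ P h
    · exact (hT₁ P h).1)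
  have hδ : ∀ P : ℤ, IsPr P → P ∣ δ → P ∈ T :=
    fun P h1 h2 => hTT (Finset.mem_union_left _ (hδ₀ P h1 h2))
  have hT₁T : ∀ q ∈ T₁, q ∈ T := fun q hq => hTT (Finset.mem_union_right _ hq)
  obtain ⟨S, s, c, hS, hdis, hsp, hc, X₀, hX₀⟩ := good_card3 hFAM hBAD κ hT
    (fun Q => SplitMod Q g) (hSPL M γ g δ hG hdeg T)
  have hSpos : 0 < ∏ Q ∈ S, Q := Finset.prod_pos fun Q hQ => (hS Q hQ).1.1
  have hc0 : -t = 1 ∨ -t = -1 ∨ -t = 2 ∨ -t = -2 := by omega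
  refine ⟨(2 * ∏ Q ∈ S, Q).toNat, X₀, c / 2 ^ S.card,
    by positivity, by omega, fun X hX Hh hHh => ?_⟩
  have hN := hX₀ X hX
  set Hs := {p : ℤ × ℤ | Crv Hh p.1 p.2 ∧ Good3 (M := M) R T₁ t p} with hH
  set G := {p : ℤ × ℤ | (Fam X S s T A B p.1 p.2 ∧ p.1 % 4 = 3 ∧ p.2 % 4 = 3) ∧
    ¬ LBad κ X S s p.1 p.2} with hG'
  have hHf : Hs.Finite := (crv_fin Hh).subset fun p hp => hp.1
  obtain ⟨H', hH'⟩ : ∃ H' : ℕ, (H' : ℤ) = 27 * ((X : ℤ) * ∏ Q ∈ S, Q) ^ 6 := by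
    refine ⟨27 * (X * (∏ Q ∈ S, Q).toNat) ^ 6, ?_⟩
    have e1 : (((∏ Q ∈ S, Q).toNat : ℕ) : ℤ) = ∏ Q ∈ S, Q := Int.toNat_of_nonneg hSpos.le
    push_cast
    rw [e1]
  have hbd : 64 * H' ≤ Hh := by
    have h1 : ((27 * (X * (2 * ∏ Q ∈ S, Q).toNat) ^ 6 : ℕ) : ℤ) ≤ Hh := by exact_mod_cast hHh
    have e1 : (((2 * ∏ Q ∈ S, Q).toNat : ℕ) : ℤ) = 2 * ∏ Q ∈ S, Q :=
      Int.toNat_of_nonneg (by omega)
    rw [Nat.cast_mul, Nat.cast_pow, Nat.cast_mul, e1] at h1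
    have e2 : ((27 : ℕ) : ℤ) * ((X : ℤ) * (2 * ∏ Q ∈ S, Q)) ^ 6 = 64 * H' := by
      rw [hH']
      push_cast
      ring
    rw [e2] at h1
    exact_mod_cast h1
  have hcard := card_fib hHf S
    (fun (J : Finset ℤ) (p : ℤ × ℤ) => (p.1 * (-t * ∏ Q ∈ J, Q) ^ 2,
      p.2 * (-t * ∏ Q ∈ J, Q) ^ 3)) (G := G) (by
      rintro p ⟨⟨hpF, hp3, hp4⟩, hnb⟩
      obtain ⟨J, hJ, hall⟩ := selR3 H hLB' M R hM hur hS hpF hp3 hp4 hnb hT hG hsp hδ hdis
      refine ⟨J, hJ, ?_⟩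
      have hcrv := hCRV X H' S T s A B p.1 p.2 hS hT hpF J hJ hH'.ge
      have hD8 : (∏ Q ∈ J, Q) % 8 = 1 := prod_mod8 fun Q hQ => (hS Q (hJ hQ)).2.1
      have haO : Odd (p.1 * (∏ Q ∈ J, Q) ^ 2) := by
        refine (show Odd p.1 by rw [Int.odd_iff]; omega).mul (Odd.pow ?_)
        rw [Int.odd_iff]
        omega
      have hcrv2 := crv_scale (c := -t) rfl haO hbd hc0 hcrv
      have e1 : p.1 * (∏ Q ∈ J, Q) ^ 2 * (-t) ^ 2 = p.1 * (-t * ∏ Q ∈ J, Q) ^ 2 := by ring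
      have e2 : p.2 * (∏ Q ∈ J, Q) ^ 3 * (-t) ^ 3 = p.2 * (-t * ∏ Q ∈ J, Q) ^ 3 := by ring
      rw [e1, e2] at hcrv2
      have hpr2 : ∀ q : ℤ, IsPr q → q ∣ -t → q = 2 := by
        intro q hq hqt
        have h1 : q ∣ 2 := by
          rcases ht with rfl | rfl | rfl | rfl
          · exact hqt.trans ⟨-2, by norm_num⟩
          · exact hqt.trans ⟨2, by norm_num⟩
          · exact hqt.trans ⟨-1, by norm_num⟩
          · exact hqt.trans ⟨1, by norm_num⟩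
        have h2 := (hq.2.dvd_prime_iff_associated Int.prime_two).1 h1
        exact Int.eq_of_associated_of_nonneg h2 hq.1.le (by norm_num)
      refine ⟨hcrv2, fun q hq => ?_, fun d hd hdt hdq => ?_⟩
      · -- the primes in `T₁`
        have hqT := hT₁T q hq
        have hqP := hT₁ q hq
        refine nt_up hqP.1.2 ?_ (fun z => fam_nt hT hpF hqT z)
        intro hdiv
        rcases hqP.1.2.dvd_or_dvd hdiv with h1 | h1
        · exact hqP.2 (hpr2 q hqP.1 h1)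
        · obtain ⟨Q, hQ, h2⟩ := (hqP.1.2.dvd_finsetProd_iff _).1 h1
          have h3 := (hqP.1.2.dvd_prime_iff_associated (hS Q (hJ hQ)).1.2).1 h2
          have h4 := Int.eq_of_associated_of_nonneg h3 hqP.1.1.le (hS Q (hJ hQ)).1.1.le
          exact Finset.disjoint_left.1 hdis (hJ hQ) (h4 ▸ hqT)
      · -- the twists
        have hTw : Tw p.1 p.2 (-t * d) := by
          refine ⟨?_, type_two ht hd hdt, fun q hq hqd => ?_⟩
          · refine mul_ne_zero ?_ hd.ne_zero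
            rcases ht with rfl | rfl | rfl | rfl <;> norm_num
          · by_cases hq2 : q = 2
            · exact Or.inl hq2
            · right
              have h1 : q ∣ d := by
                rcases hq.2.dvd_or_dvd hqd with h1 | h1
                · exact absurd (hpr2 q hq h1) hq2
                · exact h1
              exact nt_down (hdq q hq hq2 h1)
        have h2 := hall _ hTw
        have e3 : (p.1 * (-t * ∏ Q ∈ J, Q) ^ 2) * d ^ 2 =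
            p.1 * (-t * d * ∏ Q ∈ J, Q) ^ 2 := by ring
        have e4 : (p.2 * (-t * ∏ Q ∈ J, Q) ^ 3) * d ^ 3 =
            p.2 * (-t * d * ∏ Q ∈ J, Q) ^ 3 := by ring
        show GoodV (M := M) R ((p.1 * (-t * ∏ Q ∈ J, Q) ^ 2) * d ^ 2,
          (p.2 * (-t * ∏ Q ∈ J, Q) ^ 3) * d ^ 3)
        rw [e3, e4]
        exact h2) (by
      intro J hJ x hx y hy hxy
      have hD0 : (-t * ∏ Q ∈ J, Q) ≠ 0 := by
        refine mul_ne_zero ?_ ?_
        · rcases ht with rfl | rfl | rfl | rfl <;> norm_num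
        · rw [Finset.prod_ne_zero_iff]
          exact fun Q hQ => (hS Q (hJ hQ)).1.2.ne_zero
      rw [Prod.mk.injEq] at hxy
      exact twist_inj hD0 hxy.1 hxy.2)
  have hcard' : (G.ncard : ℝ) ≤ 2 ^ S.card * Hs.ncard := by exact_mod_cast hcard
  calc c / 2 ^ S.card * (X : ℝ) ^ 5
      = c * (X : ℝ) ^ 5 / 2 ^ S.card := by ring
    _ ≤ (G.ncard : ℝ) / 2 ^ S.card := by gcongr
    _ ≤ (2 ^ S.card * Hs.ncard) / 2 ^ S.card := by gcongr
    _ = Hs.ncard := by field_simp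

/-- A positive proportion of all elliptic curves over `ℚ` has the property `Good3`. -/
theorem finalV3 (M : Type) [Field M] [NumberField M]
    [IsGalois ℚ M] (R : Type) [CommRing R] [IsDedekindDomain R] [Algebra R M]
    [IsFractionRing R M] [IsIntegralClosure R ℤ M] {n : ℕ}
    (hM : Module.finrank ℚ M = 2 ^ n)
    (hur : ∀ w : HeightOneSpectrum R, Ov 2 w → w.valuation M 2 = WithZero.exp (-1 : ℤ))
    (T₁ : Finset ℤ) (hT₁ : ∀ q ∈ T₁, IsPr q ∧ q ≠ 2) {t : ℤ}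
    (ht : t = 1 ∨ t = -1 ∨ t = 2 ∨ t = -2) :
    ∃ c : ℝ, 0 < c ∧ ∃ H₀ : ℕ, ∀ H ≥ H₀, {p : ℤ × ℤ | Crv H p.1 p.2}.Finite ∧
    c * ({p : ℤ × ℤ | Crv H p.1 p.2}.ncard : ℝ) ≤
      ({p : ℤ × ℤ | Crv H p.1 p.2 ∧ Good3 (M := M) R T₁ t p}.ncard : ℝ) := by
  obtain ⟨P, X₀, c, hc, hP, h⟩ := mainV3 parts2 lb fam3 bad
    Pool.Agent.N954.PQ.tch Pool.Agent.N40.PQ.gen Pool.Agent.N40.PQ.spl
    Pool.Agent.N707.PQ.crv M R hM hur T₁ hT₁ ht
  exact Pool.Agent.N607.PQ.cnt (fun p => Good3 (M := M) R T₁ t p) P X₀ c hc hP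
    fun X hX Hh hHh => h X hX Hh hHh

end Pool.Agent.H71.SH
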