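import Pool.Agent.H71.SH.Sel3
import Pool.Agent.H71.SH.Fam3

/-!
# A positive proportion of all elliptic curves over `ℚ`: all twists by a set of integers

The assembly, adapted (helper71) from the library files `N922/PQ/Big6.lean`, `N922/PQ/Cnt2.lean` and
`N922/PQ/Final2.lean` (projects PQ and PV of helper922).
-/

set_option autoImplicit false
set_option linter.all false

open Polynomial IsDedekindDomain WeierstrassCurve WeierstrassCurve.Affine NumberField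
open Pool.Agent.TH115.GD
open scoped Classical IntermediateField

namespace Pool.Agent.H71.SH

open Pool.Agent.N922.PQ
open Pool.Agent.N874.PP (Tup chA chB gq tau Two Ev Sq1 U0 sW IsBeta Rt)
open Pool.Agent.N874.PM (PLoc Lies SelR ShaR)

/-- The integers `d` of the twists: `d = m ^ 2 e` with `e = 1` or `2` modulo `4`, and the cubic
polynomial has no zero modulo the odd prime divisors of `d`. -/
structure Tw (a b d : ℤ) : Prop where
  ne : d ≠ 0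
  two : ∃ m e : ℤ, d = m ^ 2 * e ∧ (e % 4 = 1 ∨ e % 4 = 2)
  nt : ∀ P : ℤ, IsPr P → P ∣ d → P = 2 ∨ ∀ z : ℤ, ¬ P ∣ z ^ 3 + a * z + b

/-- The theorem on the twists over `M`. -/
theorem selR3 (H : Parts2) {κ : ℕ} (hLB : LBk κ) (M : Type) [Field M] [NumberField M]
    [IsGalois ℚ M] (R : Type) [CommRing R] [IsDedekindDomain R] [Algebra R M]
    [IsFractionRing R M] [IsIntegralClosure R ℤ M] {n : ℕ}
    (hM : Module.finrank ℚ M = 2 ^ n)
    (hur : ∀ w : HeightOneSpectrum R, Ov 2 w → w.valuation M 2 = WithZero.exp (-1 : ℤ))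
    {a b : ℤ} {X' : ℕ}
    {S T : Finset ℤ} {s A B : ℤ → ℤ} (hS : GoodS S s)
    (hF : Fam X' S s T A B a b) (ha4 : a % 4 = 3) (hb4 : b % 4 = 3) (hnb : ¬ LBad κ X' S s a b)
    (hT : GoodT T A B)
    {γ : M} {g : ℤ[X]} {δ : ℤ} (hG : Gen ℚ γ g δ) (hsp : ∀ Q ∈ S, SplitMod Q g)
    (hδ : ∀ P : ℤ, IsPr P → P ∣ δ → P ∈ T) (hdis : Disjoint S T) :
    ∃ J ⊆ S, ∀ d : ℤ, Tw a b d → GoodV (M := M) R (a * (d * ∏ Q ∈ J, Q) ^ 2,
      b * (d * ∏ Q ∈ J, Q) ^ 3) := by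
  haveI : Algebra.IsIntegral ℤ R := IsIntegralClosure.isIntegral_algebra ℤ M
  haveI : CharZero R := charZero_of R M
  have ha : Odd a := by rw [Int.odd_iff]; omega
  have hb : Odd b := by rw [Int.odd_iff]; omega
  obtain ⟨w₀, hw₀⟩ := exists_over R
  have hnr := H.nr M R n hM w₀ hw₀ a b ha hb
  have hnrM : ∀ t : M, t ^ 3 + (a : M) * t + (b : M) ≠ 0 := by
    intro t ht
    apply hnr (algebraMap M _ t)
    have h1 := congrArg (algebraMap M (w₀.adicCompletion M)) ht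
    rw [map_zero, map_add, map_add, map_mul, map_pow, map_intCast, map_intCast] at h1
    exact h1
  have hirrM : Irreducible (ff M a b) := irr_tw' hnrM
  have hirr : Irreducible (ff ℚ a b) := by
    refine irr_tw' fun t ht => hnrM (algebraMap ℚ M t) ?_
    have h1 := congrArg (algebraMap ℚ M) ht
    rw [map_zero, map_add, map_add, map_mul, map_pow, map_intCast, map_intCast] at h1
    exact h1
  obtain ⟨L, iF, iN, θ, hc, hu⟩ := exists_cub hirr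
  obtain ⟨Ω, iF', iA', t, ht, hr, htop, hfin⟩ := exists_field hirrM (ff_monic M a b) (ff_deg M a b)
  haveI : CharZero Ω := charZero_of_injective_algebraMap (algebraMap M Ω).injective
  haveI : FiniteDimensional ℚ Ω := FiniteDimensional.trans ℚ M Ω
  haveI : NumberField Ω := ⟨⟩
  have ht' : t ^ 3 + (a : Ω) * t + (b : Ω) = 0 := by
    simp only [ff, map_add, map_mul, map_pow, aeval_X, aeval_C, map_intCast] at ht
    exact ht
  obtain ⟨φ, hφ⟩ := hu Ω t ht'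
  letI : Algebra L Ω := φ.toAlgebra
  have hroot : algebraMap L Ω θ = t := hφ
  have htop' : M⟮algebraMap L Ω θ⟯ = ⊤ := by rw [hroot]; exact htop
  have hG' : Gen L (algebraMap M Ω γ) g δ := by
    refine ⟨top_up (K := ℚ) hG.top htop', hG.monic, ?_, hG.ne, hG.comb⟩
    rw [aeval_algebraMap_apply, hG.root, map_zero]
  obtain ⟨J, hJ, hsel⟩ := core2 (L := L) (𝓞 L) H.p.cls H.p.exq H.p.ns H.p.lin H.p.recp H.p.plm
    H.p.sd H.p.ttv hLB hc hS hT hF hnb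
  refine ⟨J, hJ, fun d hd => ?_⟩
  -- the primes which divide `d`
  have hfd : {P : ℤ | IsPr P ∧ P ∣ d}.Finite := by
    refine (Set.finite_Icc (-|d|) |d|).subset ?_
    rintro P ⟨-, h⟩
    have h3 : |P| ≤ |d| := Int.le_of_dvd (abs_pos.2 hd.ne) ((abs_dvd_abs P d).2 h)
    exact abs_le.1 h3
  obtain ⟨T', hT'⟩ : ∃ T' : Finset ℤ, T' = T ∪ hfd.toFinset := ⟨_, rfl⟩
  have hmem : ∀ P : ℤ, P ∈ T' ↔ P ∈ T ∨ (IsPr P ∧ P ∣ d) := by
    intro P
    rw [hT', Finset.mem_union, hfd.mem_toFinset]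
    exact Iff.rfl
  have hgood : GoodT T' (fun _ => a) (fun _ => b) := by
    refine ⟨(hmem 2).2 (Or.inl hT.1), (hmem 3).2 (Or.inl hT.2.1), fun P hP => ?_⟩
    rcases (hmem P).1 hP with h | ⟨h1, h2⟩
    · exact ⟨(hT.2.2 P h).1, fam_nt hT hF h⟩
    · refine ⟨h1, ?_⟩
      rcases hd.nt P h1 h2 with rfl | h3
      · exact fam_nt hT hF hT.1
      · exact h3
  have hFam : Fam X' S s T' (fun _ => a) (fun _ => b) a b :=
    { pa := hF.pa
      da := hF.da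
      db := hF.db
      ra := hF.ra
      rb := hF.rb
      ta := fun P _ => by rw [sub_self]; exact dvd_zero P
      tb := fun P _ => by rw [sub_self]; exact dvd_zero P
      sq := hF.sq }
  have hdis' : Disjoint S T' := by
    rw [Finset.disjoint_left]
    intro Q hQ hQT
    have h1 := (hgood.2.2 Q hQT).2 0
    apply h1
    have h2 := hF.rb Q hQ
    simpa using h2
  have hδ' : ∀ P : ℤ, IsPr P → P ∣ δ → P ∈ T' := fun P h1 h2 => (hmem P).2 (Or.inl (hδ P h1 h2))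
  have hdd : ∀ P : ℤ, IsPr P → P ∣ d → P ∈ T' := fun P h1 h2 => (hmem P).2 (Or.inr ⟨h1, h2⟩)
  have hD8 : (∏ Q ∈ J, Q) % 8 = 1 := prod_mod8 fun Q hQ => (hS Q (hJ hQ)).2.1
  have hJ0 : (∏ Q ∈ J, Q) ≠ 0 := by
    rw [Finset.prod_ne_zero_iff]
    exact fun Q hQ => (hS Q (hJ hQ)).1.2.ne_zero
  obtain ⟨m, e, hdm, he⟩ := hd.two
  have hDm : d * (∏ Q ∈ J, Q) = m ^ 2 * (e * ∏ Q ∈ J, Q) := by rw [hdm]; ring
  have he' : (e * ∏ Q ∈ J, Q) % 4 = 1 ∨ (e * ∏ Q ∈ J, Q) % 4 = 2 := by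
    obtain ⟨k, hk⟩ : ∃ k, (∏ Q ∈ J, Q) = 8 * k + 1 := ⟨(∏ Q ∈ J, Q) / 8, by omega⟩
    have h1 : e * (8 * k + 1) = e + 4 * (2 * e * k) := by ring
    rw [hk, h1]
    omega
  have hsel' := selR_abs3 (𝓞 L) (𝓞 Ω) R (Ω := Ω) H hc hS hFam ha4 hb4 hgood hG hG' hsp hδ' hdis'
    hM hr htop' hur hJ hsel hd.ne hDm he' hdd
  have h6M : (6 : M) ≠ 0 := by norm_num
  have hD0 : d * (∏ Q ∈ J, Q) ≠ 0 := mul_ne_zero hd.ne hJ0
  have hdM : 4 * (((a * (d * ∏ Q ∈ J, Q) ^ 2 : ℤ)) : M) ^ 3 +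
      27 * (((b * (d * ∏ Q ∈ J, Q) ^ 3 : ℤ)) : M) ^ 2 ≠ 0 := by
    have e : 4 * (((a * (d * ∏ Q ∈ J, Q) ^ 2 : ℤ)) : M) ^ 3 +
        27 * (((b * (d * ∏ Q ∈ J, Q) ^ 3 : ℤ)) : M) ^ 2 =
        (((d * ∏ Q ∈ J, Q) ^ 6 * dsc a b : ℤ) : M) := by
      simp only [dsc, Int.cast_mul, Int.cast_add, Int.cast_pow, Int.cast_ofNat]
      ring
    rw [e, Int.cast_ne_zero]
    exact mul_ne_zero (pow_ne_zero _ hD0) hF.sq.ne_zero
  obtain ⟨h2, h3⟩ := N650.PM.gfr M R _ _ h6M hdM hsel'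
  have hfin := Pool.Agent.N273.PQ.finm M _ _ hdM h2
  refine ⟨hsel', ?_, h3⟩
  have hresM : ∀ z : M, w₀.valuation M z ≤ 1 →
      w₀.valuation M (z ^ 3 + (a : M) * z + (b : M)) = 1 := by
    intro z hz
    have h1 := res_unit M R hM w₀ hw₀ ha hb (algebraMap M (w₀.adicCompletion M) z) (by
      rw [Pool.Agent.N301.PV.vx]
      exact hz)
    rw [← Pool.Agent.N301.PV.vx]
    have h2 : algebraMap M (w₀.adicCompletion M) (z ^ 3 + (a : M) * z + (b : M)) =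
        (algebraMap M (w₀.adicCompletion M) z) ^ 3 + (a : w₀.adicCompletion M) *
          algebraMap M (w₀.adicCompletion M) z + (b : w₀.adicCompletion M) := by
      rw [map_add, map_add, map_mul, map_pow, map_intCast, map_intCast]
    rw [h2]
    exact h1
  exact tor3 M R w₀ (hur w₀ hw₀) ha4 hb4 hD0 hDm he' hresM hfin (by
    haveI := hfin
    exact odd_card (G := Pt (sW (((a * (d * ∏ Q ∈ J, Q) ^ 2 : ℤ)) : M)
      (((b * (d * ∏ Q ∈ J, Q) ^ 3 : ℤ)) : M)) M) h2)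

/-- Many curves of the family are not bad. -/
theorem good_card3 (hFAM : S_FAM3) (hBAD : S_BAD) (κ : ℕ) {T : Finset ℤ} {A B : ℤ → ℤ}
    (hT : GoodT T A B) (Φ : ℤ → Prop)
    (hEX : ∀ r : ℕ, ∃ (S : Finset ℤ) (s : ℤ → ℤ), GoodS S s ∧ S.card = r ∧ Disjoint S T ∧
      ∀ Q ∈ S, Φ Q) :
    ∃ (S : Finset ℤ) (s : ℤ → ℤ) (c : ℝ), GoodS S s ∧ Disjoint S T ∧ (∀ Q ∈ S, Φ Q) ∧
      0 < c ∧ ∃ X₀ : ℕ, ∀ X ≥ X₀,
      c * (X : ℝ) ^ 5 ≤ ({p : ℤ × ℤ | (Fam X S s T A B p.1 p.2 ∧ p.1 % 4 = 3 ∧ p.2 % 4 = 3) ∧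
        ¬ LBad κ X S s p.1 p.2}.ncard : ℝ) := by
  obtain ⟨c, hc, hfam⟩ := hFAM T A B hT
  obtain ⟨K, hK⟩ := hBAD κ
  obtain ⟨r, hr⟩ : ∃ r : ℕ, 2 * (K : ℝ) / c < 2 ^ r :=
    pow_unbounded_of_one_lt _ (by norm_num)
  obtain ⟨S, s, hS, hcard, hdis, hΦ⟩ := hEX r
  obtain ⟨X₁, h1⟩ := hfam S s hS hdis
  obtain ⟨X₂, h2⟩ := hK S s hS
  set P : ℝ := ∏ Q ∈ S, (Q : ℝ) ^ 2 with hP
  have hP0 : 0 < P := Finset.prod_pos fun Q hQ => by
    have : (0 : ℝ) < Q := by exact_mod_cast (hS Q hQ).1.1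
    positivity
  refine ⟨S, s, c / (2 * P), hS, hdis, hΦ, by positivity, max X₁ X₂, fun X hX => ?_⟩
  have hF := h1 X ((le_max_left _ _).trans hX)
  obtain ⟨hfin, hB⟩ := h2 X ((le_max_right _ _).trans hX)
  have hd := Set.le_ncard_diff {p : ℤ × ℤ | LBad κ X S s p.1 p.2}
    {p : ℤ × ℤ | Fam X S s T A B p.1 p.2 ∧ p.1 % 4 = 3 ∧ p.2 % 4 = 3} hfin
  have e : {p : ℤ × ℤ | Fam X S s T A B p.1 p.2 ∧ p.1 % 4 = 3 ∧ p.2 % 4 = 3} \
      {p : ℤ × ℤ | LBad κ X S s p.1 p.2} =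
      {p : ℤ × ℤ | (Fam X S s T A B p.1 p.2 ∧ p.1 % 4 = 3 ∧ p.2 % 4 = 3) ∧
        ¬ LBad κ X S s p.1 p.2} := rfl
  rw [e] at hd
  set F : ℕ := {p : ℤ × ℤ | Fam X S s T A B p.1 p.2 ∧ p.1 % 4 = 3 ∧ p.2 % 4 = 3}.ncard
  set Bd : ℕ := {p : ℤ × ℤ | LBad κ X S s p.1 p.2}.ncard
  set G : ℕ := {p : ℤ × ℤ | (Fam X S s T A B p.1 p.2 ∧ p.1 % 4 = 3 ∧ p.2 % 4 = 3) ∧
    ¬ LBad κ X S s p.1 p.2}.ncard
  have hd' : (F : ℝ) ≤ Bd + G := by
    have : F ≤ Bd + G := by omega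
    exact_mod_cast this
  have hB' : (2 : ℝ) ^ r * P * Bd ≤ K * (X : ℝ) ^ 5 := by
    rw [hcard] at hB
    have h3 : ((2 ^ r * (∏ Q ∈ S, Q) ^ 2 * (Bd : ℤ) : ℤ) : ℝ) ≤ ((K * X ^ 5 : ℤ) : ℝ) := by
      exact_mod_cast hB
    have e2 : ((2 ^ r * (∏ Q ∈ S, Q) ^ 2 * (Bd : ℤ) : ℤ) : ℝ) = (2 : ℝ) ^ r * P * Bd := by
      rw [hP, Finset.prod_pow]
      push_cast
      ring
    rw [e2] at h3
    refine h3.trans (le_of_eq ?_)
    push_cast
    ring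
  have hF' : c * (X : ℝ) ^ 5 ≤ P * F := hF
  rw [div_lt_iff₀ hc] at hr
  have hPB : P * (Bd : ℝ) ≤ c / 2 * (X : ℝ) ^ 5 := by
    have h2r : (0 : ℝ) < 2 ^ r := by positivity
    rw [← mul_le_mul_iff_right₀ h2r]
    calc 2 ^ r * (P * (Bd : ℝ)) = 2 ^ r * P * Bd := by ring
      _ ≤ K * (X : ℝ) ^ 5 := hB'
      _ = (2 * (K : ℝ)) * ((X : ℝ) ^ 5 / 2) := by ring
      _ ≤ (2 ^ r * c) * ((X : ℝ) ^ 5 / 2) := by gcongr
      _ = 2 ^ r * (c / 2 * (X : ℝ) ^ 5) := by ring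
  have hPG : c / 2 * (X : ℝ) ^ 5 ≤ P * G := by
    have : (P : ℝ) * F ≤ P * Bd + P * G := by
      rw [← mul_add]
      exact mul_le_mul_of_nonneg_left hd' hP0.le
    linarith
  calc c / (2 * P) * (X : ℝ) ^ 5 = c / 2 * (X : ℝ) ^ 5 / P := by
        field_simp
    _ ≤ P * G / P := by gcongr
    _ = G := by field_simp

/-- The cubic polynomial of the curve `p` has no zero modulo `q`. -/
def NT (q : ℤ) (p : ℤ × ℤ) : Prop := ∀ z : ℤ, ¬ q ∣ z ^ 3 + p.1 * z + p.2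

theorem nt_down {q a b E : ℤ} (h : NT q (a * E ^ 2, b * E ^ 3)) : NT q (a, b) := by
  intro z hz
  apply h (E * z)
  have h1 := hz.mul_left (E ^ 3)
  have e : E ^ 3 * (z ^ 3 + a * z + b) = (E * z) ^ 3 + a * E ^ 2 * (E * z) + b * E ^ 3 := by ring
  rwa [e] at h1

theorem nt_up {q a b E : ℤ} (hq : Prime q) (hE : ¬ q ∣ E) (h : NT q (a, b)) :
    NT q (a * E ^ 2, b * E ^ 3) := by
  intro z hz
  obtain ⟨u, F, huF⟩ := (hq.irreducible.coprime_iff_not_dvd).2 hE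
  have h1 : q ∣ F * E - 1 := ⟨-u, by linear_combination huF⟩
  apply h (F * z)
  have h2 := hz.mul_left (F ^ 3)
  have h3 := h1.mul_right (a * (F * E + 1) * (F * z) + b * ((F * E) ^ 2 + F * E + 1))
  have h4 := dvd_sub h2 h3
  have e : F ^ 3 * (z ^ 3 + a * E ^ 2 * z + b * E ^ 3) -
      (F * E - 1) * (a * (F * E + 1) * (F * z) + b * ((F * E) ^ 2 + F * E + 1)) =
      (F * z) ^ 3 + a * (F * z) + b := by ring
  have h5 : F ^ 3 * (z ^ 3 + (a * E ^ 2, b * E ^ 3).1 * z + (a * E ^ 2, b * E ^ 3).2) =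
      F ^ 3 * (z ^ 3 + a * E ^ 2 * z + b * E ^ 3) := rfl
  rw [h5, e] at h4
  exact h4

/-- The four types of squarefree integers at the prime `2`. -/
def HasType (t d : ℤ) : Prop := ∃ u : ℤ, u % 4 = 1 ∧ d = t * u

theorem type_two {t d : ℤ} (ht : t = 1 ∨ t = -1 ∨ t = 2 ∨ t = -2) (hd : Squarefree d)
    (h : ¬ HasType t d) : ∃ m e : ℤ, -t * d = m ^ 2 * e ∧ (e % 4 = 1 ∨ e % 4 = 2) := by
  have h4 : d % 4 ≠ 0 := by
    intro h0
    have h1 : (2 : ℤ) * 2 ∣ d := by omega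
    have h2 := hd 2 h1
    rw [Int.isUnit_iff] at h2
    omega
  have hn : ∀ u : ℤ, u % 4 = 1 → d ≠ t * u := fun u hu he => h ⟨u, hu, he⟩
  rcases ht with rfl | rfl | rfl | rfl
  · have h1 : d % 4 ≠ 1 := fun h1 => hn d h1 (by ring)
    exact ⟨1, -d, by ring, by omega⟩
  · have h1 : (-d) % 4 ≠ 1 := fun h1 => hn (-d) h1 (by ring)
    exact ⟨1, d, by ring, by omega⟩
  · rcases Int.even_or_odd d with ⟨u, hu⟩ | ⟨u, hu⟩
    · have h1 : u % 4 ≠ 1 := fun h1 => hn u h1 (by omega)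
      exact ⟨2, -u, by rw [hu]; ring, by omega⟩
    · exact ⟨1, -2 * d, by ring, by omega⟩
  · rcases Int.even_or_odd d with ⟨u, hu⟩ | ⟨u, hu⟩
    · have h1 : (-u) % 4 ≠ 1 := fun h1 => hn (-u) h1 (by omega)
      exact ⟨2, u, by rw [hu]; ring, by omega⟩
    · exact ⟨1, 2 * d, by ring, by omega⟩

/-- Scaling of minimal curves. -/
theorem crv_scale {H a b c : ℤ} {H' : ℕ} (hH : H = H') (ha : Odd a) {K : ℕ}
    (hK : 64 * H' ≤ K) (hc : c = 1 ∨ c = -1 ∨ c = 2 ∨ c = -2) (h : Crv H' a b) :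
    Crv K (a * c ^ 2) (b * c ^ 3) := by
  have hK' : (64 * H' : ℤ) ≤ K := by exact_mod_cast hK
  have hA := h.hA
  have hB := h.hB
  have h0 : (0 : ℤ) ≤ H' := by positivity
  have hc2 : c ^ 2 = 1 ∨ c ^ 2 = 4 := by
    rcases hc with rfl | rfl | rfl | rfl <;> norm_num
  have habs : |a * c ^ 2| = |a| * c ^ 2 := by
    rw [abs_mul, abs_of_nonneg (sq_nonneg c)]
  have hb2 : (b * c ^ 3) ^ 2 = b ^ 2 * (c ^ 2) ^ 3 := by ring
  have hb0 : 0 ≤ b ^ 2 := sq_nonneg b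
  have ha0 : 0 ≤ |a| ^ 3 := by positivity
  refine ⟨?_, ?_, ?_, ?_⟩
  · have e : 4 * (a * c ^ 2) ^ 3 + 27 * (b * c ^ 3) ^ 2 = c ^ 6 * (4 * a ^ 3 + 27 * b ^ 2) := by
      ring
    rw [e]
    refine mul_ne_zero (pow_ne_zero 6 ?_) h.disc
    rcases hc with rfl | rfl | rfl | rfl <;> norm_num
  · intro p hp
    rintro ⟨h1, h2⟩
    have hpp := Nat.prime_iff_prime_int.1 hp
    by_cases hpc : (p : ℤ) ∣ c
    · -- `p = 2`
      have hp2 : p = 2 := by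
        have h3 : (p : ℤ) ∣ 2 := by
          rcases hc with rfl | rfl | rfl | rfl
          · exact hpc.trans ⟨2, by norm_num⟩
          · exact hpc.trans ⟨-2, by norm_num⟩
          · exact hpc
          · exact hpc.trans ⟨-1, by norm_num⟩
        have h4 : p ∣ 2 := by exact_mod_cast h3
        exact (Nat.prime_dvd_prime_iff_eq hp Nat.prime_two).1 h4
      subst hp2
      obtain ⟨k, hk⟩ := ha
      rcases hc2 with h5 | h5
      · rw [h5, hk] at h1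
        norm_num at h1
        omega
      · rw [h5, hk] at h1
        norm_num at h1
        omega
    · have hco : IsCoprime (p : ℤ) c := (hpp.irreducible.coprime_iff_not_dvd).2 hpc
      have h3 : (p : ℤ) ^ 4 ∣ a := (hco.pow (m := 4) (n := 2)).dvd_of_dvd_mul_right h1
      have h4 : (p : ℤ) ^ 6 ∣ b := (hco.pow (m := 6) (n := 3)).dvd_of_dvd_mul_right h2
      exact h.min p hp ⟨h3, h4⟩
  · rw [habs, mul_pow]
    rcases hc2 with h5 | h5 <;> rw [h5] <;> nlinarith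
  · rw [hb2]
    rcases hc2 with h5 | h5 <;> rw [h5] <;> nlinarith

end Pool.Agent.H71.SH
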