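import Pool.Graph.R_pool_sql_team_seeded_63374d34.N922.PQ.Final2

/-!
# No points of odd order on the twists; the cubic polynomial has unit values at integers

Adapted (helper71) from the library files `N137/PV/Tor.lean` and `N301/PV/NR.lean` (project PV of
helper922), where only the curve `y ^ 2 = x ^ 3 + a x + b` is considered.
-/

set_option autoImplicit false
set_option linter.all false

open Polynomial IsDedekindDomain WeierstrassCurve WeierstrassCurve.Affine NumberField
open Pool.Agent.TH115.GD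
open scoped Classical

namespace Pool.Agent.H71.SH

open Pool.Agent.N922.PQ
open Pool.Agent.N874.PP (sW)
open Pool.Agent.N137.PV (lt_one_le two_lt two_ne add_le_one mul_le_one_v two_mul_lt dup xv eqn
  negY_eq)

section res

open Pool.Agent.N301.PV

variable {M R : Type} [Field M] [CommRing R] [IsDedekindDomain R] [Algebra R M]
  [IsFractionRing R M] (w : HeightOneSpectrum R)

/-- an element of `R` close to a zero modulo the prime -/
theorem exists_r' (a b : ℤ) (t : w.adicCompletion M) (ht : Valued.v t ≤ 1)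
    (h : Valued.v (t ^ 3 + (a : w.adicCompletion M) * t + (b : w.adicCompletion M)) < 1) :
    ∃ r : R, r ^ 3 + (a : R) * r + (b : R) ∈ w.asIdeal := by
  obtain ⟨x, hx⟩ := near_one w t
  have hx1 : w.valuation M x ≤ 1 := by
    rw [← vx]
    have e : algebraMap M (w.adicCompletion M) x =
        t - (t - algebraMap M (w.adicCompletion M) x) := by ring
    rw [e]
    exact (Valuation.map_sub _ _ _).trans (max_le ht hx.le)
  obtain ⟨r, hr⟩ := w.exists_valuation_sub_lt_of_integer (K := M) hx1 1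
  have hr1 : w.valuation M (algebraMap R M r - x) < 1 := by exact_mod_cast hr
  refine ⟨r, ?_⟩
  rw [← w.valuation_lt_one_iff_mem (K := M), ← vx]
  obtain ⟨ρ, hρ⟩ : ∃ ρ, ρ = algebraMap M (w.adicCompletion M) (algebraMap R M r) := ⟨_, rfl⟩
  have e1 : algebraMap M (w.adicCompletion M) (algebraMap R M (r ^ 3 + (a : R) * r + (b : R))) =
      ρ ^ 3 + (a : w.adicCompletion M) * ρ + (b : w.adicCompletion M) := by
    rw [hρ]
    simp only [map_add, map_mul, map_pow, map_intCast]
  have hd : Valued.v (ρ - t) < 1 := by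
    have e : ρ - t = algebraMap M (w.adicCompletion M) (algebraMap R M r - x) -
        (t - algebraMap M (w.adicCompletion M) x) := by
      rw [hρ, map_sub]
      ring
    rw [e]
    refine lt_of_le_of_lt (Valuation.map_sub _ _ _) (max_lt ?_ hx)
    rw [vx]
    exact hr1
  have hρ1 : Valued.v ρ ≤ 1 := by
    have e : ρ = (ρ - t) + t := by ring
    rw [e]
    exact (Valuation.map_add _ _ _).trans (max_le hd.le ht)
  have e2 : ρ ^ 3 + (a : w.adicCompletion M) * ρ + (b : w.adicCompletion M) =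
      (ρ - t) * (ρ * ρ + ρ * t + t * t + (a : w.adicCompletion M)) +
      (t ^ 3 + (a : w.adicCompletion M) * t + (b : w.adicCompletion M)) := by
    ring
  rw [e1, e2]
  refine lt_of_le_of_lt (Valuation.map_add _ _ _) (max_lt ?_ h)
  rw [map_mul]
  have hmul : ∀ {x y : w.adicCompletion M}, Valued.v x ≤ 1 → Valued.v y ≤ 1 →
      Valued.v (x * y) ≤ 1 := by
    intro x y hx hy
    rw [map_mul]
    exact mul_le_one' hx hy
  have h3 : Valued.v (ρ * ρ + ρ * t + t * t + (a : w.adicCompletion M)) ≤ 1 := by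
    refine (Valuation.map_add _ _ _).trans (max_le ?_ (vint _ a))
    refine (Valuation.map_add _ _ _).trans (max_le ?_ (hmul ht ht))
    exact (Valuation.map_add _ _ _).trans (max_le (hmul hρ1 hρ1) (hmul hρ1 ht))
  calc _ ≤ Valued.v (ρ - t) * 1 := mul_le_mul' le_rfl h3
    _ = Valued.v (ρ - t) := mul_one _
    _ < 1 := hd

end res

/-- The cubic polynomial has unit values at the integers of the completion at a prime over `2` of a
Galois extension of `ℚ` of degree `2 ^ n`. -/
theorem res_unit (M : Type) [Field M] [NumberField M] [IsGalois ℚ M] (R : Type) [CommRing R]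
    [IsDedekindDomain R] [Algebra R M] [IsFractionRing R M] [IsIntegralClosure R ℤ M] {n : ℕ}
    (hn : Module.finrank ℚ M = 2 ^ n) (w : HeightOneSpectrum R) (hw : Ov 2 w) {a b : ℤ}
    (ha : Odd a) (hb : Odd b) (t : w.adicCompletion M) (ht : Valued.v t ≤ 1) :
    Valued.v (t ^ 3 + (a : w.adicCompletion M) * t + (b : w.adicCompletion M)) = 1 := by
  have hle : Valued.v (t ^ 3 + (a : w.adicCompletion M) * t + (b : w.adicCompletion M)) ≤ 1 := by
    refine (Valuation.map_add _ _ _).trans (max_le ?_ (Pool.Agent.N301.PV.vint _ b))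
    refine (Valuation.map_add _ _ _).trans (max_le ?_ ?_)
    · rw [map_pow]
      exact pow_le_one' ht 3
    · rw [map_mul]
      exact mul_le_one' (Pool.Agent.N301.PV.vint _ a) ht
  refine le_antisymm hle (not_lt.1 fun hlt => ?_)
  obtain ⟨r, hr⟩ := exists_r' w a b t ht hlt
  let e : R ≃+* 𝓞 M := (IsIntegralClosure.equiv ℤ R M (𝓞 M)).toRingEquiv
  have hp : (w.asIdeal.comap (e.symm : 𝓞 M →+* R)).IsPrime := inferInstance
  refine Pool.Agent.N301.PV.no_root M n hn (w.asIdeal.comap (e.symm : 𝓞 M →+* R)) ?_ a b ha hb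
    (e r) ?_
  · rw [Ideal.mem_comap, map_ofNat]
    have h : ((2 : ℤ) : R) ∈ w.asIdeal := hw
    simpa using h
  · rw [Ideal.mem_comap]
    have h : (e.symm : 𝓞 M →+* R) ((e r) ^ 3 + (a : 𝓞 M) * (e r) + (b : 𝓞 M)) =
        r ^ 3 + (a : R) * r + (b : R) := by
      simp
    rw [h]
    exact hr

section val

variable {F : Type} [Field F] (v : Valuation F (WithZero (Multiplicative ℤ)))

/-- `x` is not `1` modulo `v` -/
theorem not_one' (hv : v 2 = WithZero.exp (-1 : ℤ)) (l k m : ℤ) (x y : F) (hx : v x ≤ 1)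
    (hy : v y ≤ 1)
    (h : ((1 + 4 * l : ℤ) : F) * y ^ 2 = x ^ 3 + ((2 * k + 1 : ℤ) : F) * x +
      ((2 * k + 1 - 4 * m : ℤ) : F)) :
    ¬ v (x - 1) < 1 := by
  intro h1
  have h2 := two_ne v hv
  have hv2 : v 2 ≠ 0 := (v.ne_zero_iff).2 h2
  set s : F := (x - 1) / 2 with hs
  have hxs : x = 1 + 2 * s := by rw [hs]; field_simp; ring
  have hvs : v s ≤ 1 := by
    have h3 : v 2 * v s ≤ v 2 * 1 := by
      rw [← map_mul, mul_one]
      have : 2 * s = x - 1 := by rw [hxs]; ring
      rw [this]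
      exact lt_one_le v hv h1
    exact le_of_mul_le_mul_left h3 (zero_lt_iff.2 hv2)
  have int_le := Pool.Agent.N137.PV.int_le v
  set q : F := (k : F) + s * ((k : F) + 2) + 3 * s ^ 2 + 2 * s ^ 3 - (m : F) -
    (l : F) * y ^ 2 with hq
  have hk := int_le k
  have hm := int_le m
  have hl := int_le l
  have h3' : v (3 : F) ≤ 1 := by simpa using int_le 3
  have h2' : v (2 : F) ≤ 1 := by simpa using int_le 2
  have hs2 : v (s ^ 2) ≤ 1 := by rw [map_pow]; exact pow_le_one' hvs 2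
  have hs3 : v (s ^ 3) ≤ 1 := by rw [map_pow]; exact pow_le_one' hvs 3
  have hy2 : v (y ^ 2) ≤ 1 := by rw [map_pow]; exact pow_le_one' hy 2
  have hvq : v q ≤ 1 := by
    rw [hq, sub_eq_add_neg]
    refine add_le_one v ?_ (by rw [Valuation.map_neg]; exact mul_le_one_v v hl hy2)
    rw [sub_eq_add_neg]
    refine add_le_one v (add_le_one v (add_le_one v (add_le_one v hk ?_) ?_) ?_) ?_
    · exact mul_le_one_v v hvs (add_le_one v hk h2')
    · exact mul_le_one_v v h3' hs2
    · exact mul_le_one_v v h2' hs3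
    · rwa [Valuation.map_neg]
  have hyy : (y - 1) * (y + 1) = 2 * (1 + 2 * q) := by
    have : (y - 1) * (y + 1) = ((1 + 4 * l : ℤ) : F) * y ^ 2 - 4 * (l : F) * y ^ 2 - 1 := by
      push_cast
      ring
    rw [this, h, hxs, hq]
    push_cast
    ring
  have hprod : v (y - 1) * v (y + 1) = v 2 := by
    rw [← map_mul, hyy, map_mul, v.map_one_add_of_lt (two_mul_lt v hv hvq), mul_one]
  have hor : v (y - 1) < 1 ∨ v (y + 1) < 1 := by
    by_contra hc
    push Not at hc
    have : 1 ≤ v (y - 1) * v (y + 1) := one_le_mul hc.1 hc.2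
    rw [hprod] at this
    exact absurd (two_lt v hv) (not_lt.2 this)
  have hboth : v (y - 1) ≤ v 2 ∧ v (y + 1) ≤ v 2 := by
    rcases hor with h4 | h4
    · have h5 := lt_one_le v hv h4
      refine ⟨h5, ?_⟩
      have : y + 1 = (y - 1) + 2 := by ring
      rw [this]
      exact (v.map_add _ _).trans (max_le h5 le_rfl)
    · have h5 := lt_one_le v hv h4
      refine ⟨?_, h5⟩
      have : y - 1 = (y + 1) + -2 := by ring
      rw [this]
      exact (v.map_add _ _).trans (max_le h5 (by rw [Valuation.map_neg]))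
  have h6 : v 2 ≤ v 2 * v 2 := by
    calc v 2 = v (y - 1) * v (y + 1) := hprod.symm
      _ ≤ v 2 * v 2 := mul_le_mul' hboth.1 hboth.2
  have h7 : v 2 * v 2 < v 2 * 1 :=
    mul_lt_mul_of_pos_left (two_lt v hv) (zero_lt_iff.2 hv2)
  rw [mul_one] at h7
  exact absurd h6 (not_le.2 h7)

theorem dup1' (hv : v 2 = WithZero.exp (-1 : ℤ)) (l k m : ℤ) (x y D : F) (hx : v x ≤ 1)
    (h : ((1 + 4 * l : ℤ) : F) * y ^ 2 = x ^ 3 + ((2 * k + 1 : ℤ) : F) * x +
      ((2 * k + 1 - 4 * m : ℤ) : F))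
    (hD : D * (4 * (x ^ 3 + ((2 * k + 1 : ℤ) : F) * x + ((2 * k + 1 - 4 * m : ℤ) : F))) =
      (x ^ 2 - ((2 * k + 1 : ℤ) : F)) ^ 2 - 8 * ((2 * k + 1 - 4 * m : ℤ) : F) * x) :
    1 < v D := by
  have int_le := Pool.Agent.N137.PV.int_le v
  have hA := int_le (2 * k + 1)
  have hB := int_le (2 * k + 1 - 4 * m)
  have e5 : v (x ^ 3 + ((2 * k + 1 : ℤ) : F) * x + ((2 * k + 1 - 4 * m : ℤ) : F)) ≤ 1 := by
    refine add_le_one v (add_le_one v ?_ (mul_le_one_v v hA hx)) hB
    rw [map_pow]; exact pow_le_one' hx 3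
  have hy : v y ≤ 1 := by
    have h1 : v ((1 + 4 * l : ℤ) : F) = 1 := by
      have e : (((1 + 4 * l : ℤ)) : F) = 1 + 2 * (2 * (l : F)) := by push_cast; ring
      rw [e]
      exact v.map_one_add_of_lt (two_mul_lt v hv (two_mul_lt v hv (int_le l)).le)
    have h2 : v y ^ 2 ≤ 1 := by
      have h3 : v (((1 + 4 * l : ℤ) : F) * y ^ 2) ≤ 1 := by rw [h]; exact e5
      rwa [map_mul, h1, one_mul, map_pow] at h3
    by_contra hc
    rw [not_le] at hc
    exact absurd h2 (not_le.2 (one_lt_pow₀ hc two_ne_zero))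
  have h1 := not_one' v hv l k m x y hx hy h
  have hx1 : v (x - 1) = 1 := by
    refine le_antisymm ?_ (not_lt.1 h1)
    rw [sub_eq_add_neg]
    exact add_le_one v hx (by rw [Valuation.map_neg, map_one])
  have e1 : x ^ 2 - ((2 * k + 1 : ℤ) : F) = (x - 1) ^ 2 + 2 * (x - 1 - (k : F)) := by
    push_cast; ring
  have e2 : v (x ^ 2 - ((2 * k + 1 : ℤ) : F)) = 1 := by
    rw [e1, Valuation.map_add_eq_of_lt_left]
    · rw [map_pow, hx1, one_pow]
    · rw [map_pow, hx1, one_pow]
      apply two_mul_lt v hv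
      rw [sub_eq_add_neg]
      exact add_le_one v hx1.le (by rw [Valuation.map_neg]; exact int_le k)
  have e3 : v (8 * ((2 * k + 1 - 4 * m : ℤ) : F) * x) < 1 := by
    have : (8 : F) * ((2 * k + 1 - 4 * m : ℤ) : F) * x =
        2 * (((4 : ℤ) : F) * ((2 * k + 1 - 4 * m : ℤ) : F) * x) := by push_cast; ring
    rw [this]
    exact two_mul_lt v hv (mul_le_one_v v (mul_le_one_v v (int_le 4) hB) hx)
  have e4 : v ((x ^ 2 - ((2 * k + 1 : ℤ) : F)) ^ 2 -
      8 * ((2 * k + 1 - 4 * m : ℤ) : F) * x) = 1 := by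
    rw [sub_eq_add_neg, Valuation.map_add_eq_of_lt_left]
    · rw [map_pow, e2, one_pow]
    · rw [Valuation.map_neg, map_pow, e2, one_pow]
      exact e3
  have e6 : v (4 * (x ^ 3 + ((2 * k + 1 : ℤ) : F) * x + ((2 * k + 1 - 4 * m : ℤ) : F))) < 1 := by
    have : (4 : F) * (x ^ 3 + ((2 * k + 1 : ℤ) : F) * x + ((2 * k + 1 - 4 * m : ℤ) : F)) =
        2 * (((2 : ℤ) : F) * (x ^ 3 + ((2 * k + 1 : ℤ) : F) * x +
          ((2 * k + 1 - 4 * m : ℤ) : F))) := by push_cast; ring
    rw [this]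
    exact two_mul_lt v hv (mul_le_one_v v (int_le 2) e5)
  by_contra hc
  push Not at hc
  have e7 : v D * v (4 * (x ^ 3 + ((2 * k + 1 : ℤ) : F) * x +
      ((2 * k + 1 - 4 * m : ℤ) : F))) = 1 := by rw [← map_mul, hD, e4]
  have e8 : v D * v (4 * (x ^ 3 + ((2 * k + 1 : ℤ) : F) * x +
      ((2 * k + 1 - 4 * m : ℤ) : F))) < 1 := by
    calc v D * v (4 * (x ^ 3 + ((2 * k + 1 : ℤ) : F) * x + ((2 * k + 1 - 4 * m : ℤ) : F)))
        ≤ 1 * v (4 * (x ^ 3 + ((2 * k + 1 : ℤ) : F) * x + ((2 * k + 1 - 4 * m : ℤ) : F))) := by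
          gcongr
      _ = v (4 * (x ^ 3 + ((2 * k + 1 : ℤ) : F) * x + ((2 * k + 1 - 4 * m : ℤ) : F))) :=
          one_mul _
      _ < 1 := e6
  rw [e7] at e8
  exact lt_irrefl _ e8

theorem dup2' (hv : v 2 = WithZero.exp (-1 : ℤ)) (A B : ℤ) (x D : F) (hx : 1 < v x)
    (hD : D * (4 * (x ^ 3 + (A : F) * x + (B : F))) = (x ^ 2 - (A : F)) ^ 2 - 8 * (B : F) * x) :
    v x < v D := by
  have int_le := Pool.Agent.N137.PV.int_le v
  have hx0 : 0 < v x := lt_trans zero_lt_one hx
  have hA := int_le A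
  have hB := int_le B
  have p2 : v x < v x ^ 2 := by
    rw [sq]; exact lt_mul_of_one_lt_left hx0 hx
  have p3 : v x < v x ^ 3 := by
    rw [pow_succ]
    exact lt_trans p2 (lt_mul_of_one_lt_right (lt_trans hx0 p2) hx)
  have p4 : v x < v x ^ 4 := by
    rw [pow_succ]
    exact lt_trans p3 (lt_mul_of_one_lt_right (lt_trans hx0 p3) hx)
  have e1 : v (x ^ 2 - (A : F)) = v x ^ 2 := by
    rw [sub_eq_add_neg, Valuation.map_add_eq_of_lt_left, map_pow]
    rw [Valuation.map_neg, map_pow]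
    exact lt_of_le_of_lt hA (lt_trans hx p2)
  have h8 : v (8 : F) ≤ 1 := by simpa using int_le 8
  have e2 : v (8 * (B : F) * x) ≤ v x := by
    rw [map_mul]
    calc v (8 * (B : F)) * v x ≤ 1 * v x := by
          gcongr; exact mul_le_one_v v h8 hB
      _ = v x := one_mul _
  have e3 : v ((x ^ 2 - (A : F)) ^ 2 - 8 * (B : F) * x) = v x ^ 4 := by
    rw [sub_eq_add_neg, Valuation.map_add_eq_of_lt_left]
    · rw [map_pow, e1, ← pow_mul]
    · rw [Valuation.map_neg, map_pow, e1, ← pow_mul]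
      exact lt_of_le_of_lt e2 p4
  have e4 : v ((A : F) * x + (B : F)) ≤ v x := by
    refine (v.map_add _ _).trans (max_le ?_ (hB.trans hx.le))
    rw [map_mul]
    calc v (A : F) * v x ≤ 1 * v x := by gcongr
      _ = v x := one_mul _
  have e5 : v (x ^ 3 + (A : F) * x + (B : F)) = v x ^ 3 := by
    rw [add_assoc, Valuation.map_add_eq_of_lt_left, map_pow]
    rw [map_pow]
    exact lt_of_le_of_lt e4 p3
  by_contra hc
  push Not at hc
  have e6 : v D * (v 4 * v x ^ 3) = v x ^ 4 := by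
    rw [← e3, ← hD, map_mul, map_mul, e5]
  have h4 : v (4 : F) < 1 := by
    have : (4 : F) = 2 * 2 := by norm_num
    rw [this]
    exact two_mul_lt v hv (two_lt v hv).le
  have e7 : v D * (v 4 * v x ^ 3) < v x ^ 4 := by
    calc v D * (v 4 * v x ^ 3) ≤ v x * (v 4 * v x ^ 3) := by gcongr
      _ = v 4 * v x ^ 4 := by
          rw [pow_succ (v x) 3, ← mul_assoc, mul_comm (v x) (v 4), mul_assoc,
            mul_comm (v x) (v x ^ 3)]
      _ < 1 * v x ^ 4 := mul_lt_mul_of_pos_right h4 (pow_pos hx0 4)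
      _ = v x ^ 4 := one_mul _
  rw [e6] at e7
  exact lt_irrefl _ e7

/-- no integral points on the twists by `e = 2` modulo `4` -/
theorem no_int (hv : v 2 = WithZero.exp (-1 : ℤ)) {e : ℤ} (he : e % 4 = 2) {y z : F}
    (h : v ((e : F) * y ^ 2) = 1) : False := by
  obtain ⟨l, hl⟩ : ∃ l : ℤ, e = 2 * (2 * l + 1) := ⟨e / 4, by omega⟩
  have int_le := Pool.Agent.N137.PV.int_le v
  have h1 : v (e : F) = v 2 := by
    rw [hl]
    push_cast
    rw [map_mul]
    have e1 : (2 * (l : F) + 1) = 1 + 2 * (l : F) := by ring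
    rw [e1, v.map_one_add_of_lt (two_mul_lt v hv (int_le l)), mul_one]
  rw [map_mul, h1, hv, map_pow] at h
  have h0 : v y ≠ 0 := by
    intro h0
    rw [h0] at h
    simp at h
  rw [← WithZero.exp_log h0, ← WithZero.exp_nsmul, ← WithZero.exp_add, ← WithZero.exp_zero,
    WithZero.exp_inj] at h
  simp at h
  omega

end val

/-- The points of the twist by `D = m ^ 2 e`, `e = 1` or `2` modulo `4`: no points of odd order. -/
theorem tor3 (M R : Type) [Field M] [NumberField M] [CommRing R] [IsDedekindDomain R] [Algebra R M]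
    [IsFractionRing R M] (w : HeightOneSpectrum R) (hw : w.valuation M 2 = WithZero.exp (-1 : ℤ))
    {a b D m e : ℤ} (ha : a % 4 = 3) (hb : b % 4 = 3) (hD0 : D ≠ 0) (hDm : D = m ^ 2 * e)
    (he : e % 4 = 1 ∨ e % 4 = 2)
    (hres : ∀ z : M, w.valuation M z ≤ 1 →
      w.valuation M (z ^ 3 + (a : M) * z + (b : M)) = 1)
    (hfin : Finite (Pt (sW (((a * D ^ 2 : ℤ)) : M) (((b * D ^ 3 : ℤ)) : M)) M))
    (hodd : Odd (Nat.card (Pt (sW (((a * D ^ 2 : ℤ)) : M) (((b * D ^ 3 : ℤ)) : M)) M))) :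
    Subsingleton (Pt (sW (((a * D ^ 2 : ℤ)) : M) (((b * D ^ 3 : ℤ)) : M)) M) := by
  have hDM : (D : M) ≠ 0 := by exact_mod_cast hD0
  have hDF : (D : M) = (m : M) ^ 2 * (e : M) := by rw [hDm]; push_cast; ring
  have hm0 : (m : M) ≠ 0 := by
    intro h0
    apply hDM
    rw [hDF, h0]
    ring
  have he0 : (e : M) ≠ 0 := by
    intro h0
    apply hDM
    rw [hDF, h0]
    ring
  obtain ⟨A, hA⟩ : ∃ A : M, A = (((a * D ^ 2 : ℤ)) : M) := ⟨_, rfl⟩
  obtain ⟨B, hB⟩ : ∃ B : M, B = (((b * D ^ 3 : ℤ)) : M) := ⟨_, rfl⟩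
  rw [← hA, ← hB] at hfin hodd ⊢
  have hA' : A = (a : M) * (D : M) ^ 2 := by rw [hA]; push_cast; ring
  have hB' : B = (b : M) * (D : M) ^ 3 := by rw [hB]; push_cast; ring
  obtain ⟨v, hv⟩ : ∃ v, v = w.valuation M := ⟨_, rfl⟩
  rw [← hv] at hw hres
  by_contra hsub
  rw [not_subsingleton_iff_nontrivial] at hsub
  -- nonzero points are not of order two
  have htwo : ∀ P : Pt (sW A B) M, P ≠ 0 → P + P ≠ 0 := by
    intro P hP h
    have h1 : addOrderOf P ∣ 2 := by
      apply addOrderOf_dvd_of_nsmul_eq_zero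
      rw [two_nsmul]; exact h
    have h2 : addOrderOf P ∣ Nat.card (Pt (sW A B) M) := addOrderOf_dvd_natCard P
    have h3 : addOrderOf P = 1 := by
      rcases (Nat.dvd_prime Nat.prime_two).1 h1 with h4 | h4
      · exact h4
      · rw [h4] at h2
        exact absurd hodd (by rw [Nat.not_odd_iff_even]; exact (even_iff_two_dvd.2 h2))
    exact hP (AddMonoid.addOrderOf_eq_one_iff.1 h3)
  -- doubling increases the value
  have key : ∀ P : Pt (sW A B) M, P ≠ 0 →
      1 < xv A B (fun x => v (x / D)) (P + P) ∧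
      xv A B (fun x => v (x / D)) P < xv A B (fun x => v (x / D)) (P + P) := by
    intro P hP
    match P, hP with
    | .zero, hP => exact absurd rfl hP
    | .some x y h, hP =>
      have hy : y ≠ 0 := by
        rintro rfl
        apply htwo _ hP
        apply Point.add_self_of_Y_eq
        rw [negY_eq]
        ring
      obtain ⟨X', z, h', hadd, hX⟩ := dup A B x y h hy
      rw [hadd]
      have hE := eqn A B h
      obtain ⟨ξ, hξ⟩ : ∃ ξ : M, ξ = x / D := ⟨_, rfl⟩
      obtain ⟨η, hη⟩ : ∃ η : M, η = y / (D * m * e) := ⟨_, rfl⟩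
      obtain ⟨ξ', hξ'⟩ : ∃ ξ' : M, ξ' = X' / D := ⟨_, rfl⟩
      have hx' : x = D * ξ := by rw [hξ]; field_simp
      have hX' : X' = D * ξ' := by rw [hξ']; field_simp
      have hy' : y ^ 2 = D ^ 3 * (e * η ^ 2) := by
        have : (D : M) ^ 3 = D ^ 2 * (m ^ 2 * e) := by rw [pow_succ, ← hDF]
        rw [this, hη]
        field_simp
      have hη2 : (e : M) * η ^ 2 = ξ ^ 3 + (a : M) * ξ + (b : M) := by
        have hD3 : (D : M) ^ 3 ≠ 0 := pow_ne_zero 3 hDM
        apply mul_left_cancel₀ hD3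
        rw [← hy', hE, hA', hB', hx']
        ring
      have hdup : ξ' * (4 * (ξ ^ 3 + (a : M) * ξ + (b : M))) = (ξ ^ 2 - (a : M)) ^ 2 -
          8 * (b : M) * ξ := by
        have hD4 : (D : M) ^ 4 ≠ 0 := pow_ne_zero 4 hDM
        apply mul_left_cancel₀ hD4
        rw [← hη2]
        rw [hy', hX', hx', hA', hB'] at hX
        linear_combination hX
      show 1 < v (X' / D) ∧ v (x / D) < v (X' / D)
      rw [← hξ', ← hξ]
      rcases le_or_gt (v ξ) 1 with hx | hx
      · have h1 : 1 < v ξ' := by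
          rcases he with he | he
          · obtain ⟨l, hl⟩ : ∃ l : ℤ, e = 1 + 4 * l := ⟨e / 4, by omega⟩
            obtain ⟨k, hk⟩ : ∃ k : ℤ, a = 2 * k + 1 := ⟨a / 2, by omega⟩
            obtain ⟨n, hn⟩ : ∃ n : ℤ, b = 2 * k + 1 - 4 * n := ⟨(2 * k + 1 - b) / 4, by omega⟩
            subst hl
            subst hk
            subst hn
            exact dup1' v hw l k n ξ η ξ' hx hη2 hdup
          · exfalso
            refine no_int v hw he (y := η) (z := ξ) ?_
            rw [hη2]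
            exact hres ξ hx
        exact ⟨h1, lt_of_le_of_lt hx h1⟩
      · have := dup2' v hw a b ξ ξ' hx hdup
        exact ⟨lt_trans hx this, this⟩
  obtain ⟨Q, hQ⟩ := exists_ne (0 : Pt (sW A B) M)
  obtain ⟨P, hP⟩ := Finite.exists_max (xv A B (fun x => v (x / D)))
  have hP0 : P ≠ 0 := by
    rintro rfl
    have h1 := (key Q hQ).1
    have h2 := hP (Q + Q)
    have h3 : xv A B (fun x => v (x / D)) 0 = 0 := rfl
    rw [h3] at h2
    exact absurd (lt_of_lt_of_le h1 h2) (not_lt.2 zero_le_one)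
  exact absurd (key P hP0).2 (not_lt.2 (hP (P + P)))

end Pool.Agent.H71.SH
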