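import Pool.Agent.H71.SH.Ud3
import Pool.Agent.H71.SH.Tor3

/-!
# The 2-Selmer groups of the twists over an extension in which `2` is unramified

Adapted (helper71) from the library files `N922/PQ/Big3.lean` and `N922/PQ/Big6.lean` (projects PQ
and PV of helper922): there the curve is twisted by the product of the primes in `J`, here by this
product times an integer `d`.
-/

set_option autoImplicit false
set_option linter.all false

open Polynomial IsDedekindDomain WeierstrassCurve WeierstrassCurve.Affine NumberField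
open Pool.Agent.TH115.GD
open scoped Classical IntermediateField

namespace Pool.Agent.H71.SH

open Pool.Agent.N922.PQ
open Pool.Agent.N874.PP (Tup chA chB gq tau Two Ev Sq1 U0 sW IsBeta Rt)
open Pool.Agent.N874.PM (PLoc Lies SelR ShaR S_LOC1M S_LOC2M)

section top

variable {L M Ω : Type} (O O' R : Type) [Field L] [NumberField L] [Field M] [NumberField M]
  [Field Ω] [NumberField Ω] [Algebra L Ω] [Algebra M Ω]
  [CommRing O] [IsDedekindDomain O] [Algebra O L] [IsFractionRing O L] [IsIntegralClosure O ℤ L]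
  [CommRing O'] [IsDedekindDomain O'] [Algebra O' Ω] [IsFractionRing O' Ω]
  [IsIntegralClosure O' ℤ Ω]
  [CommRing R] [IsDedekindDomain R] [Algebra R M] [IsFractionRing R M] [IsIntegralClosure R ℤ M]

include O in
theorem cnd_top3 (hEXQ : S_EXQ) (hUR : S_UR) (hSPD : S_SPD) (hLIE : S_LIE) (hLOC1M : S_LOC1M)
    (hLOC2M : S_LOC2M) {a b : ℤ} {θ : L} {X' : ℕ} {S J T : Finset ℤ}
    {s A B : ℤ → ℤ} (hc : IsCub a b θ) (hS : GoodS S s)
    (hF : Fam X' S s T A B a b) {γ : M} {g : ℤ[X]} {δ : ℤ} (hG : Gen ℚ γ g δ)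
    (hG' : Gen L (algebraMap M Ω γ) g δ) (hsp : ∀ Q ∈ S, SplitMod Q g)
    (hT : GoodT T A B)
    (hδ : ∀ P : ℤ, IsPr P → P ∣ δ → P ∈ T) (hdis : Disjoint S T)
    {d : ℤ} (hd : ∀ P : ℤ, IsPr P → P ∣ d → P ∈ T)
    (hJ : J ⊆ S) {h : M[X]}
    (hloc : ∀ w : HeightOneSpectrum R, ¬ Ov 2 w → PLoc (w.adicCompletion M)
      (((a * (d * ∏ Q ∈ J, Q) ^ 2 : ℤ)) : M) (((b * (d * ∏ Q ∈ J, Q) ^ 3 : ℤ)) : M) h)
    (h0 : aeval (((d * ∏ Q ∈ J, Q : ℤ) : Ω) * algebraMap L Ω θ) h ≠ 0) :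
    Cnd O' J T (algebraMap L Ω θ) (aeval (((d * ∏ Q ∈ J, Q : ℤ) : Ω) * algebraMap L Ω θ) h)
    := by
  haveI : Algebra.IsIntegral ℤ R := IsIntegralClosure.isIntegral_algebra ℤ M
  haveI : Algebra.IsIntegral ℤ O' := IsIntegralClosure.isIntegral_algebra ℤ Ω
  haveI : CharZero R := charZero_of R M
  haveI : CharZero O' := charZero_of O' Ω
  have hT' : ∀ P ∈ T, IsPr P := fun P hP => (hT.2.2 P hP).1
  have hroot : (algebraMap L Ω θ) ^ 3 + algebraMap M Ω (a : M) * algebraMap L Ω θ +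
      algebraMap M Ω (b : M) = 0 := by
    have h1 := congrArg (algebraMap L Ω) hc.root
    rw [map_zero, map_add, map_add, map_mul, map_pow, map_intCast, map_intCast] at h1
    rw [map_intCast, map_intCast]
    exact h1
  -- at the primes in `J`
  have key : ∀ Q ∈ J, ∀ 𝔓 : HeightOneSpectrum O', Ov Q 𝔓 →
      (𝔓.valuation Ω (algebraMap L Ω θ) = 1 → U0 𝔓 ((Q : Ω) * algebraMap L Ω θ)
        (aeval (((d * ∏ Q ∈ J, Q : ℤ) : Ω) * algebraMap L Ω θ) h)) ∧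
      (𝔓.valuation Ω (algebraMap L Ω θ) < 1 →
        Ev 𝔓 (aeval (((d * ∏ Q ∈ J, Q : ℤ) : Ω) * algebraMap L Ω θ) h)) := by
    intro Q hQ 𝔓 h𝔓
    have hQS := hJ hQ
    obtain ⟨w, hw, hO⟩ := hLIE M Ω R O' 𝔓
    have hQw : Ov Q w := (hO Q).2 h𝔓
    have hδw : ¬ Ov δ w := not_ov_delta hδ hS hT' hdis hQS hQw
    have hdw : ¬ Ov d w := not_ov_delta hd hS hT' hdis hQS hQw
    have hδ𝔓 : ¬ Ov δ 𝔓 := fun h => hδw ((hO δ).2 h)
    have h2w : ¬ Ov 2 w := not_ov_T hS hT' hdis hQS hT.1 hQw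
    have h3w : ¬ Ov 3 w := not_ov_T hS hT' hdis hQS hT.2.1 hQw
    obtain ⟨v, hv⟩ := (hUR ℚ M ℤ R γ g δ hG).1 w hδw
    haveI : Finite (R ⧸ w.asIdeal) :=
      Pool.Agent.N42.PQ.finite_residue (L := M) (hS Q hQS).1.2.ne_zero hQw
    have hprod : (d * ∏ P ∈ J, P) = Q * (d * ∏ P ∈ J.erase Q, P) := by
      have h1 : (∏ P ∈ J, P) = Q * ∏ P ∈ J.erase Q, P := (Finset.mul_prod_erase J id hQ).symm
      rw [h1]
      ring
    have hvQ : w.valuation M (Q : M) = v.valuation ℚ (Q : ℚ) := by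
      rw [← hv, map_intCast (algebraMap ℚ M)]
    have hϖ : w.valuation M (Q : M) = WithZero.exp (-1 : ℤ) := by
      refine le_antisymm (val_le_exp w ?_ ((ov_val Q w).1 hQw)) ?_
      · exact_mod_cast (hS Q hQS).1.2.ne_zero
      · rw [hvQ]
        exact val_sqfree (hS Q hQS).1.2.irreducible.squarefree v
    have hD' : w.valuation M (((d * ∏ P ∈ J.erase Q, P : ℤ)) : M) = 1 := by
      refine val_eq_of _ w fun h => ?_
      rcases ov_mul h with h | h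
      · exact hdw h
      · obtain ⟨P, hP, hP'⟩ := ov_prod h
        have hPS := hJ (Finset.mem_of_mem_erase hP)
        exact Finset.ne_of_mem_erase hP (below_unique (hS P hPS).1 (hS Q hQS).1 hP' hQw)
    have hb1 : w.valuation M (b : M) < 1 := by
      rw [← ov_val]
      obtain ⟨c, hc⟩ := hF.rb Q hQS
      unfold Ov at hQw ⊢
      rw [hc, Int.cast_mul]
      exact Ideal.mul_mem_right _ _ hQw
    have hns := fun z hz => ns_top R hUR hSPD (a := a) hG (hS Q hQS).1.2 (hsp Q hQS)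
      (fam_ns hS hF hQS) w hQw hδw z hz
    have e1 : (((a * (d * ∏ Q ∈ J, Q) ^ 2 : ℤ)) : M) = (a : M) *
        ((Q : M) * (((d * ∏ P ∈ J.erase Q, P : ℤ)) : M)) ^ 2 := by
      rw [hprod]
      simp only [Int.cast_mul, Int.cast_pow]
    have e2 : (((b * (d * ∏ Q ∈ J, Q) ^ 3 : ℤ)) : M) = (b : M) *
        ((Q : M) * (((d * ∏ P ∈ J.erase Q, P : ℤ)) : M)) ^ 3 := by
      rw [hprod]
      simp only [Int.cast_mul, Int.cast_pow]
    have e3 : algebraMap M Ω ((Q : M) * (((d * ∏ P ∈ J.erase Q, P : ℤ)) : M)) =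
        (((d * ∏ P ∈ J, P : ℤ)) : Ω) := by
      rw [hprod, map_mul, map_intCast, map_intCast, Int.cast_mul Q]
    have hl := hloc w h2w
    rw [e1, e2] at hl
    have h2 := hLOC2M M Ω R O' w 𝔓 hw (a : M) (b : M)
      (Q : M) (((d * ∏ P ∈ J.erase Q, P : ℤ)) : M) (algebraMap L Ω θ) h hroot
      (val_six h2w h3w) (val_le a w) hb1 hϖ hD' hns hl (by rw [e3]; exact h0)
    rw [e3, map_intCast (algebraMap M Ω)] at h2
    refine ⟨fun h3 => h2.1 h3 ?_, h2.2⟩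
    exact odd_top O O' hEXQ hUR hc hF.sq hG' (hS Q hQS).1.2 (hF.rb Q hQS) (fam_ns hS hF hQS) 𝔓
      h𝔓 hδ𝔓 h3
  refine ⟨fun 𝔓 h1 h2 => ?_, fun Q hQ 𝔓 h1 h2 => (key Q hQ 𝔓 h1).1 h2,
    fun Q hQ 𝔓 h1 h2 => (key Q hQ 𝔓 h1).2 h2⟩
  obtain ⟨w, hw, hO⟩ := hLIE M Ω R O' 𝔓
  have hnT : ∀ P ∈ T, ¬ Ov P w := fun P hP h => h1 P hP ((hO P).1 h)
  have hδw : ¬ Ov δ w := by
    intro h
    obtain ⟨P, hP, hP'⟩ := ov_delta hδ h
    exact hnT P hP hP'
  obtain ⟨v, hv⟩ := (hUR ℚ M ℤ R γ g δ hG).1 w hδw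
  have hD : w.valuation M (((d * ∏ Q ∈ J, Q : ℤ)) : M) = 1 := by
    refine val_eq_of _ w fun h => ?_
    rcases ov_mul h with h | h
    · obtain ⟨P, hP, hP'⟩ := ov_delta hd h
      exact hnT P hP hP'
    · obtain ⟨Q, hQ, h'⟩ := ov_prod h
      exact h2 Q hQ ((hO Q).1 h')
  have hdisc : WithZero.exp (-1 : ℤ) ≤ w.valuation M (4 * (a : M) ^ 3 +
      27 * (b : M) ^ 2) := by
    have e : 4 * (a : M) ^ 3 + 27 * (b : M) ^ 2 =
        algebraMap ℚ M ((dsc a b : ℤ) : ℚ) := by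
      rw [map_intCast]
      simp [dsc]
    rw [e, hv]
    exact val_sqfree hF.sq v
  have e3 : algebraMap M Ω (((d * ∏ P ∈ J, P : ℤ)) : M) = (((d * ∏ P ∈ J, P : ℤ)) : Ω) :=
    map_intCast _ _
  have hl := hloc w (hnT 2 hT.1)
  have hl' : PLoc (w.adicCompletion M) ((a : M) * (((d * ∏ Q ∈ J, Q : ℤ)) : M) ^ 2)
      ((b : M) * (((d * ∏ Q ∈ J, Q : ℤ)) : M) ^ 3) h := by
    have e1 : (((a * (d * ∏ Q ∈ J, Q) ^ 2 : ℤ)) : M) =
        (a : M) * (((d * ∏ Q ∈ J, Q : ℤ)) : M) ^ 2 := by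
      simp only [Int.cast_mul, Int.cast_pow]
    have e2 : (((b * (d * ∏ Q ∈ J, Q) ^ 3 : ℤ)) : M) =
        (b : M) * (((d * ∏ Q ∈ J, Q : ℤ)) : M) ^ 3 := by
      simp only [Int.cast_mul, Int.cast_pow]
    rw [← e1, ← e2]
    exact hl
  have h3 := hLOC1M M Ω R O' w 𝔓 hw (a : M) (b : M)
    (((d * ∏ P ∈ J, P : ℤ)) : M) (algebraMap L Ω θ) h hroot
    (val_six (hnT 2 hT.1) (hnT 3 hT.2.1)) (val_le a w) (val_le b w) hD hdisc hl'
    (by rw [e3]; exact h0)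
  rw [e3] at h3
  exact h3

end top

theorem plc_congr' {F : Type} [Field F] {a b : ℤ} {h h' : F[X]} (e : h = h')
    (H : PL F a b h) : PL F a b h' := e ▸ H

section abs

variable {L M Ω : Type} (O O' R : Type) [Field L] [NumberField L] [Field M] [NumberField M]
  [Field Ω] [NumberField Ω] [Algebra L Ω] [Algebra M Ω]
  [CommRing O] [IsDedekindDomain O] [Algebra O L] [IsFractionRing O L] [IsIntegralClosure O ℤ L]
  [CommRing O'] [IsDedekindDomain O'] [Algebra O' Ω] [IsFractionRing O' Ω]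
  [IsIntegralClosure O' ℤ Ω]
  [CommRing R] [IsDedekindDomain R] [Algebra R M] [IsFractionRing R M] [IsIntegralClosure R ℤ M]
  [IsGalois ℚ M]

theorem isCub_tw {a b : ℤ} {θ : L} (hc : IsCub a b θ) {D : ℤ} (hD : D ≠ 0) :
    IsCub (a * D ^ 2) (b * D ^ 3) ((D : L) * θ) := by
  have hDL : (D : L) ≠ 0 := by exact_mod_cast hD
  refine ⟨?_, hc.rank, fun x => ?_⟩
  · have := hc.root
    push_cast
    linear_combination (D : L) ^ 3 * this
  · obtain ⟨r, s, t, rfl⟩ := hc.gen x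
    refine ⟨r, s / D, t / D ^ 2, ?_⟩
    push_cast
    field_simp

/-- The base of the descent. -/
theorem base_two3 {a b : ℤ} {θ : L} (hc : IsCub a b θ) (ha : a % 4 = 3) (hb : b % 4 = 3)
    {n : ℕ} (hM : Module.finrank ℚ M = 2 ^ n)
    (hur : ∀ w : HeightOneSpectrum R, Ov 2 w → w.valuation M 2 = WithZero.exp (-1 : ℤ))
    {D m e : ℤ} (hD0 : D ≠ 0) (hD : D = m ^ 2 * e) (he : e % 4 = 1 ∨ e % 4 = 2)
    {x : L} (hx : x ≠ 0) (hN : IsSquare (Algebra.norm ℚ x))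
    (hC : C2w M R (a * D ^ 2) (b * D ^ 3) (algebraMap L Ω ((D : L) * θ)) (algebraMap L Ω x)) :
    Loc2 a b θ x := by
  haveI : Algebra.IsIntegral ℤ R := IsIntegralClosure.isIntegral_algebra ℤ M
  haveI : CharZero R := charZero_of R M
  obtain ⟨w, hw⟩ := exists_over R
  have hv2 : Valued.v (2 : w.adicCompletion M) = WithZero.exp (-1 : ℤ) := by
    have h1 := HeightOneSpectrum.valuedAdicCompletion_eq_valuation' (K := M) w (2 : M)
    rw [hur w hw] at h1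
    have e : ((2 : M) : w.adicCompletion M) = 2 := by
      have := map_ofNat (algebraMap M (w.adicCompletion M)) 2
      exact this
    rw [e] at h1
    exact h1
  have haO : Odd a := by rw [Int.odd_iff]; omega
  have hbO : Odd b := by rw [Int.odd_iff]; omega
  refine ud3 hc ha hb hx hN hD0 hD he (F := w.adicCompletion M)
    (Γ := WithZero (Multiplicative ℤ)) Valued.v ?_ ?_ ?_ ?_
  · rw [hv2, ← WithZero.exp_zero, WithZero.exp_lt_exp]
    norm_num
  · intro z hz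
    rw [hv2]
    by_cases h0 : Valued.v z = 0
    · rw [h0]
      exact zero_le'
    · rw [← WithZero.exp_log h0, ← WithZero.exp_zero, WithZero.exp_lt_exp] at hz
      rw [← WithZero.exp_log h0, WithZero.exp_le_exp]
      omega
  · intro z hz
    exact res_unit M R hM w hw haO hbO z hz
  · intro h hh
    have h1 := hC w hw (h.map (algebraMap ℚ M)) (by
      rw [aeval_map_algebraMap, aeval_algebraMap_apply, hh])
    rw [Polynomial.map_map] at h1
    have e : (algebraMap M (w.adicCompletion M)).comp (algebraMap ℚ M) =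
        algebraMap ℚ (w.adicCompletion M) := RingHom.ext_rat _ _
    rw [e] at h1
    exact h1

include Ω O O' in
theorem selR_abs3 (H : Parts2) {a b : ℤ} {θ : L} {X' : ℕ}
    {S J T : Finset ℤ} {s A B : ℤ → ℤ} (hc : IsCub a b θ) (hS : GoodS S s)
    (hF : Fam X' S s T A B a b) (ha : a % 4 = 3) (hb : b % 4 = 3)
    (hT : GoodT T A B)
    {γ : M} {g : ℤ[X]} {δ : ℤ} (hG : Gen ℚ γ g δ)
    (hG' : Gen L (algebraMap M Ω γ) g δ) (hsp : ∀ Q ∈ S, SplitMod Q g)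
    (hδ : ∀ P : ℤ, IsPr P → P ∣ δ → P ∈ T) (hdis : Disjoint S T)
    {n : ℕ} (hM : Module.finrank ℚ M = 2 ^ n) (hΩ : Module.finrank M Ω = 3)
    (htop : M⟮algebraMap L Ω θ⟯ = ⊤)
    (hur : ∀ w : HeightOneSpectrum R, Ov 2 w → w.valuation M 2 = WithZero.exp (-1 : ℤ))
    (hJ : J ⊆ S)
    (hsel : ∀ α : L, α ≠ 0 → IsSquare (Algebra.norm ℚ α) → Loc2 a b θ α →
      (∀ 𝔓 : HeightOneSpectrum O, (∀ Q ∈ J, ¬ Ov Q 𝔓) → Ev 𝔓 α) →
      (∀ Q ∈ J, ∀ 𝔓 : HeightOneSpectrum O, Ov Q 𝔓 → 𝔓.valuation L θ = 1 →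
        U0 𝔓 ((Q : L) * θ) α) →
      (∀ Q ∈ J, ∀ 𝔓 : HeightOneSpectrum O, Ov Q 𝔓 → 𝔓.valuation L θ < 1 → Ev 𝔓 α) →
      IsSquare α)
    {d m e : ℤ} (hd0 : d ≠ 0) (hdm : d * (∏ Q ∈ J, Q) = m ^ 2 * e) (he : e % 4 = 1 ∨ e % 4 = 2)
    (hd : ∀ P : ℤ, IsPr P → P ∣ d → P ∈ T) :
    SelR R (sW (((a * (d * ∏ Q ∈ J, Q) ^ 2 : ℤ)) : M)
      (((b * (d * ∏ Q ∈ J, Q) ^ 3 : ℤ)) : M)) := by
  haveI : Algebra.IsIntegral ℤ R := IsIntegralClosure.isIntegral_algebra ℤ M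
  haveI : Algebra.IsIntegral ℤ O' := IsIntegralClosure.isIntegral_algebra ℤ Ω
  haveI : Algebra.IsIntegral ℤ O := IsIntegralClosure.isIntegral_algebra ℤ L
  haveI : CharZero R := charZero_of R M
  haveI : CharZero O' := charZero_of O' Ω
  haveI : CharZero O := charZero_of O L
  have haO : Odd a := by rw [Int.odd_iff]; omega
  have hbO : Odd b := by rw [Int.odd_iff]; omega
  have h6M : (6 : M) ≠ 0 := by norm_num
  have h2K : (2 : ℚ) ≠ 0 := by norm_num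
  have hT' : ∀ P ∈ T, IsPr P := fun P hP => (hT.2.2 P hP).1
  have hnr : ∀ w : HeightOneSpectrum R, Ov 2 w → ∀ t : w.adicCompletion M,
      t ^ 3 + (a : w.adicCompletion M) * t + (b : w.adicCompletion M) ≠ 0 :=
    fun w hw => H.nr M R n hM w hw a b haO hbO
  have hJ0 : (∏ Q ∈ J, Q) ≠ 0 := by
    rw [Finset.prod_ne_zero_iff]
    exact fun Q hQ => (hS Q (hJ hQ)).1.2.ne_zero
  obtain ⟨D, hD⟩ : ∃ D : ℤ, D = d * ∏ Q ∈ J, Q := ⟨_, rfl⟩
  have hD0 : D ≠ 0 := by rw [hD]; exact mul_ne_zero hd0 hJ0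
  have hDL : (D : L) ≠ 0 := by exact_mod_cast hD0
  have hcnd' := fun (h : M[X]) hloc h0 => cnd_top3 O O' R H.p.exq H.p.ur H.p.spd H.p.lie H.p.loc1
    H.p.loc2 hc hS hF hG hG' hsp hT hδ hdis hd hJ (h := h) hloc h0
  rw [← hD] at hdm ⊢
  simp only [← hD] at hcnd'
  intro f hf h2f hloc
  obtain ⟨w₀, hw₀⟩ := exists_over R
  have hnrD : ∀ w : HeightOneSpectrum R, Ov 2 w → ∀ t : w.adicCompletion M,
      t ^ 3 + (((a * D ^ 2 : ℤ)) : w.adicCompletion M) * t +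
        (((b * D ^ 3 : ℤ)) : w.adicCompletion M) ≠ 0 :=
    fun w hw => no_root_tw' (hnr w hw) hD0
  have hirrD := irr_tw' (F := M) (a := a * D ^ 2) (b := b * D ^ 3)
    (fun t ht => by
      apply hnrD w₀ hw₀ (algebraMap M _ t)
      have h1 := congrArg (algebraMap M (w₀.adicCompletion M)) ht
      rw [map_zero, map_add, map_add, map_mul, map_pow, map_intCast, map_intCast] at h1
      exact h1)
  have hdscD : dsc (a * D ^ 2) (b * D ^ 3) = D ^ 6 * dsc a b := by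
    unfold dsc
    ring
  have hdscD0 : dsc (a * D ^ 2) (b * D ^ 3) ≠ 0 := by
    rw [hdscD]
    exact mul_ne_zero (pow_ne_zero _ hD0) hF.sq.ne_zero
  have hdisc : 4 * (((a * D ^ 2 : ℤ)) : M) ^ 3 + 27 * (((b * D ^ 3 : ℤ)) : M) ^ 2 ≠ 0 := by
    have e : 4 * (((a * D ^ 2 : ℤ)) : M) ^ 3 + 27 * (((b * D ^ 3 : ℤ)) : M) ^ 2 =
        ((dsc (a * D ^ 2) (b * D ^ 3) : ℤ) : M) := by
      simp only [dsc, Int.cast_mul, Int.cast_add, Int.cast_pow, Int.cast_ofNat]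
    rw [e, Int.cast_ne_zero]
    exact hdscD0
  have hroot : (algebraMap L Ω θ) ^ 3 + (a : Ω) * algebraMap L Ω θ + (b : Ω) = 0 := by
    have h1 := congrArg (algebraMap L Ω) hc.root
    rw [map_zero, map_add, map_add, map_mul, map_pow, map_intCast, map_intCast] at h1
    exact h1
  have hcD := isCub_tw hc hD0
  have heD : algebraMap L Ω ((D : L) * θ) = (D : Ω) * algebraMap L Ω θ := by
    rw [map_mul, map_intCast]
  have htopD : M⟮algebraMap L Ω ((D : L) * θ)⟯ = ⊤ := by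
    rw [eq_top_iff, ← htop, IntermediateField.adjoin_simple_le_iff]
    have h1 := IntermediateField.mem_adjoin_simple_self M (algebraMap L Ω ((D : L) * θ))
    have h2 : ((D : Ω))⁻¹ ∈ M⟮algebraMap L Ω ((D : L) * θ)⟯ := by
      apply IntermediateField.inv_mem
      have := (M⟮algebraMap L Ω ((D : L) * θ)⟯).algebraMap_mem ((D : ℤ) : M)
      rwa [map_intCast] at this
    have h3 := mul_mem h2 h1
    have hDO : (D : Ω) ≠ 0 := by exact_mod_cast hD0
    have h4 : ((D : Ω))⁻¹ * algebraMap L Ω ((D : L) * θ) = algebraMap L Ω θ := by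
      rw [heD, ← mul_assoc, inv_mul_cancel₀ hDO, one_mul]
    rw [h4] at h3
    exact h3
  obtain ⟨β, hβ⟩ := H.p.gb M _ _ h6M hdisc hirrD f hf h2f
  obtain ⟨h, hh, hn⟩ := H.p.gn M _ _ h6M hdisc hirrD f hf h2f β hβ
  have hRt : Rt (((a * D ^ 2 : ℤ)) : M) (((b * D ^ 3 : ℤ)) : M)
      ((D : Ω) * algebraMap L Ω θ) := by
    unfold Rt
    rw [map_intCast, map_intCast]
    simp only [Int.cast_mul, Int.cast_pow]
    linear_combination (D : Ω) ^ 3 * hroot
  have hn2 := hn Ω _ hRt hΩ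
  have hcnd := hcnd' h
    (fun w hw => H.p.glr M R _ _ h6M hdisc f hf h2f β h hβ hh w (val_two hw) (hloc w)) hn2.1
  -- the condition at the primes over `2`
  have hdeg : Module.finrank M Ω = 3 := hΩ
  haveI : FiniteDimensional M Ω := FiniteDimensional.of_finrank_pos (by rw [hΩ]; norm_num)
  have hminD : minpoly M ((D : Ω) * algebraMap L Ω θ) = ff M (a * D ^ 2) (b * D ^ 3) := by
    have hint : IsIntegral M ((D : Ω) * algebraMap L Ω θ) := Algebra.IsIntegral.isIntegral _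
    have hd : minpoly M ((D : Ω) * algebraMap L Ω θ) ∣ ff M (a * D ^ 2) (b * D ^ 3) := by
      apply minpoly.dvd
      simp only [ff, map_add, map_mul, map_pow, aeval_X, aeval_C, map_intCast]
      push_cast
      linear_combination (D : Ω) ^ 3 * hroot
    have hdeg : (minpoly M ((D : Ω) * algebraMap L Ω θ)).natDegree = 3 := by
      rw [heD] at htopD
      rw [(Field.primitive_element_iff_minpoly_natDegree_eq M _).1 htopD, hΩ]
    exact (Polynomial.eq_of_monic_of_dvd_of_natDegree_le (minpoly.monic hint)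
      (ff_monic M _ _) hd (by rw [hdeg, ff_deg])).symm
  have hc2 : C2w M R (a * D ^ 2) (b * D ^ 3) (algebraMap L Ω ((D : L) * θ))
      (aeval ((D : Ω) * algebraMap L Ω θ) h) := by
    intro w hw h' hh'
    have hPL := H.p.glr2 M R _ _ h6M hdisc f hf h2f β h hβ hh w (fun t ht => by
      apply hnrD w hw t
      rw [map_intCast, map_intCast] at ht
      exact ht) (hloc w)
    have h3 := H.twg M (w.adicCompletion M) (a * D ^ 2) (b * D ^ 3) 1 one_ne_zero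
      (by rw [Int.cast_one]; exact IsSquare.one) h (by
        rw [one_pow, one_pow, mul_one, mul_one]
        exact hPL)
    refine Pool.Agent.N922.PQ.pl_congr ?_ h3
    have h4 : ff M (a * D ^ 2) (b * D ^ 3) ∣ h.comp (C ((1 : ℤ) : M) * X) - h' := by
      rw [← hminD]
      apply minpoly.dvd
      rw [heD] at hh'
      rw [map_sub, hh', aeval_comp, map_mul, aeval_X, aeval_C, map_intCast, Int.cast_one,
        one_mul, sub_self]
    have h5 := Polynomial.map_dvd (algebraMap M (w.adicCompletion M)) h4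
    rw [ff_map, Polynomial.map_sub] at h5
    exact h5
  obtain ⟨c1, c2, c3⟩ := H.c2w L M Ω R (a * D ^ 2) (b * D ^ 3) ((D : L) * θ) hdscD0 hnrD hcD hΩ
    htopD
  have hsq := H.p.tow n ℚ L M Ω h2K hM hc.rank hΩ
    (fun x => Cnd O' J T (algebraMap L Ω θ) x ∧
      C2w M R (a * D ^ 2) (b * D ^ 3) (algebraMap L Ω ((D : L) * θ)) x)
    (fun x hx => ⟨cnd_sq hx, c1 x⟩)
    (fun x y hx hy h h' => ⟨cnd_mul H.p.cls (fun Q hQ => ⟨(hS Q (hJ hQ)).1.2,
        not_dvd_two (hS Q (hJ hQ)).2.1 (hS Q (hJ hQ)).1.1 (hS Q (hJ hQ)).1.2⟩)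
      (fun Q hQ 𝔓 h1 h2 => odd_top O O' H.p.exq H.p.ur hc hF.sq hG' (hS Q (hJ hQ)).1.2
        (hF.rb Q (hJ hQ)) (fam_ns hS hF (hJ hQ)) 𝔓 h1
        (not_ov_delta hδ hS hT' hdis (hJ hQ) h1) h2) hx hy h.1 h'.1, c2 x y h.2 h'.2⟩)
    (fun σ x h => ⟨cnd_sig H.p.sig rfl σ h.1, c3 σ x h.2⟩)
    (fun x hx hC hN => base_sq O O' hsel (H.p.ur L Ω O O' _ g δ hG').2
      (fun Q hQ => H.p.spd L Ω O' _ g δ hG' Q (hS Q (hJ hQ)).1.2 (hsp Q (hJ hQ)))
      (fun P hP => H.p.p3 L O a b θ hc hF.sq P (hT' P hP).2 (fam_nt hT hF hP))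
      (fun 𝔓 h => ov_delta hδ h)
      (fun Q hQ 𝔓 h => not_ov_delta hδ hS hT' hdis (hJ hQ) h) hx hC.1
      (base_two3 R hc ha hb hM hur hD0 hdm he hx hN hC.2) hN)
    _ hn2.1 ⟨hcnd, hc2⟩ hn2.2
  exact H.p.gt M _ _ h6M hdisc hirrD f hf h2f β h hβ hh _ _ hRt hΩ hsq

end abs

end Pool.Agent.H71.SH
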