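import Pool.Agent.H71.SH.Cal3
import Pool.Graph.R_pool_sql_team_seeded_63374d34.N922.PQ.Final2

/-!
# Descent of the local condition at `2` for the twists

`D = m ^ 2 e` with `e = 1` modulo `4`, or `e = 2` modulo `4` and `a = b = 3` modulo `4`: the local
condition at `2` for the twist by `D` over a field in which `2` is a uniformiser implies the local
condition `Loc2` of `y ^ 2 = x ^ 3 + a x + b` over `ℚ_2`, for elements of the cubic field `L`.
-/

set_option autoImplicit false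
set_option linter.all false

open Polynomial IsDedekindDomain NumberField
open scoped Classical

namespace Pool.Agent.H71.SH

open Pool.Agent.N922.PQ

section plt

variable {F : Type} [Field F]

theorem plt_congr {a b : ℤ} {e : F} {h h' : F[X]} (hd : ff F a b ∣ h - h')
    (H : PLt F a b e h) : PLt F a b e h' := by
  rcases H with ⟨g, hg⟩ | ⟨x, y, hy, hxy, g, hg⟩
  · left
    refine ⟨g, ?_⟩
    have e : h' - g ^ 2 = (h - g ^ 2) - (h - h') := by ring
    rw [e]
    exact dvd_sub hg hd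
  · right
    refine ⟨x, y, hy, hxy, g, ?_⟩
    have e : C e * (C x - X) * h' - g ^ 2 = (C e * (C x - X) * h - g ^ 2) -
        C e * (C x - X) * (h - h') := by ring
    rw [e]
    exact dvd_sub hg (dvd_mul_of_dvd_right hd _)

theorem plt_sq {a b : ℤ} {e : F} {h : F[X]} (k : F[X]) (H : PLt F a b e h) :
    PLt F a b e (k ^ 2 * h) := by
  rcases H with ⟨g, hg⟩ | ⟨x, y, hy, hxy, g, hg⟩
  · left
    refine ⟨k * g, ?_⟩
    have e : k ^ 2 * h - (k * g) ^ 2 = k ^ 2 * (h - g ^ 2) := by ring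
    rw [e]
    exact dvd_mul_of_dvd_right hg _
  · right
    refine ⟨x, y, hy, hxy, k * g, ?_⟩
    have e : C e * (C x - X) * (k ^ 2 * h) - (k * g) ^ 2 =
        k ^ 2 * (C e * (C x - X) * h - g ^ 2) := by ring
    rw [e]
    exact dvd_mul_of_dvd_right hg _

theorem ff_comp (a b D : ℤ) : (ff F (a * D ^ 2) (b * D ^ 3)).comp (C (D : F) * X) =
    C ((D : F) ^ 3) * ff F a b := by
  unfold ff
  simp only [add_comp, mul_comp, pow_comp, X_comp, C_comp]
  push_cast
  simp only [map_mul, map_pow]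
  ring

theorem twist_pl [CharZero F] {a b D m e : ℤ} (hD0 : D ≠ 0) (hD : D = m ^ 2 * e) {h : F[X]}
    (H : PL F (a * D ^ 2) (b * D ^ 3) h) : PLt F a b (e : F) (h.comp (C (D : F) * X)) := by
  have hD0' : (D : F) ≠ 0 := by exact_mod_cast hD0
  have hDF : (D : F) = (m : F) ^ 2 * (e : F) := by rw [hD]; push_cast; ring
  have hm0 : (m : F) ≠ 0 := by
    intro h0
    apply hD0'
    rw [hDF, h0]
    ring
  have he0 : (e : F) ≠ 0 := by
    intro h0
    apply hD0'
    rw [hDF, h0]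
    ring
  have hdv : ∀ p : F[X], ff F (a * D ^ 2) (b * D ^ 3) ∣ p →
      ff F a b ∣ p.comp (C (D : F) * X) := by
    rintro p ⟨q, rfl⟩
    rw [mul_comp, ff_comp]
    exact Dvd.intro_left (C ((D : F) ^ 3)) rfl |>.mul_right _
  rcases H with ⟨g, hg⟩ | ⟨x, y, hy, hxy, g, hg⟩
  · left
    refine ⟨g.comp (C (D : F) * X), ?_⟩
    have := hdv _ hg
    simpa only [sub_comp, pow_comp] using this
  · right
    refine ⟨x / D, y / (D * m * e), ?_, ?_, g.comp (C (D : F) * X) * C ((m : F)⁻¹), ?_⟩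
    · exact div_ne_zero hy (mul_ne_zero (mul_ne_zero hD0' hm0) he0)
    · push_cast at hxy
      have h1 : (e : F) * (y / (D * m * e)) ^ 2 = y ^ 2 / D ^ 3 := by
        have : (D : F) ^ 3 = D ^ 2 * (m ^ 2 * e) := by rw [pow_succ, ← hDF]
        rw [this]
        field_simp
      rw [h1, hxy]
      field_simp
    · have h1 := hdv _ hg
      have h2 : ((C x - X) * h - g ^ 2).comp (C (D : F) * X) =
          C ((m : F) ^ 2) * (C (e : F) * (C (x / D) - X) * h.comp (C (D : F) * X) -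
            (g.comp (C (D : F) * X) * C ((m : F)⁻¹)) ^ 2) := by
        have h3 : C x = C (D : F) * C (x / (D : F)) := by
          rw [← C_mul]
          congr 1
          field_simp
        have h4 : (C ((m : F) ^ 2) : F[X]) * (C ((m : F)⁻¹)) ^ 2 = 1 := by
          rw [← C_pow, ← C_mul, ← C_1]
          congr 1
          field_simp
        simp only [sub_comp, mul_comp, pow_comp, X_comp, C_comp]
        have h5 : (C (D : F) : F[X]) = C ((m : F) ^ 2) * C (e : F) := by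
          rw [← C_mul, ← hDF]
        rw [h3]
        linear_combination ((C (x / (D : F)) - X) * h.comp (C (D : F) * X)) * h5 +
          (g.comp (C (D : F) * X)) ^ 2 * h4
      rw [h2] at h1
      have hu : IsUnit (C ((m : F) ^ 2) : F[X]) := isUnit_C.2 (pow_ne_zero 2 hm0).isUnit
      exact (hu.dvd_mul_left).1 h1

end plt

open Pool.Agent.N951.PV in
/-- Descent of the local condition at `2`. -/
theorem ud3 {L : Type} [Field L] [NumberField L] {a b : ℤ} {θ : L} (hc : IsCub a b θ)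
    (ha : a % 4 = 3) (hb : b % 4 = 3) {x : L} (hx : x ≠ 0) (hN : IsSquare (Algebra.norm ℚ x))
    {D m e : ℤ} (hD0 : D ≠ 0) (hD : D = m ^ 2 * e) (he : e % 4 = 1 ∨ e % 4 = 2)
    {F Γ : Type} [Field F] [CharZero F] [LinearOrderedCommGroupWithZero Γ] (v : Valuation F Γ)
    (hv : v 2 < 1) (hv2 : ∀ x : F, v x < 1 → v x ≤ v 2)
    (hres : ∀ z : F, v z ≤ 1 → v (z ^ 3 + a * z + b) = 1)
    (hPL : ∀ h : ℚ[X], aeval ((D : L) * θ) h = x →
      PL F (a * D ^ 2) (b * D ^ 3) (h.map (algebraMap ℚ F))) : Loc2 a b θ x := by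
  have haO : Odd a := by rw [Int.odd_iff]; omega
  have hbO : Odd b := by rw [Int.odd_iff]; omega
  have hab : (4 : ℤ) ∣ a - b := by omega
  have hDL : (D : L) ≠ 0 := by exact_mod_cast hD0
  have hDQ : (D : ℚ) ≠ 0 := by exact_mod_cast hD0
  obtain ⟨c, g₁, g₂, r, s, t, hc0, hr, hs, ht, hα⟩ :=
    Pool.Agent.N907.PV.t_NF2 L a b θ hc haO hbO x hx hN
  obtain ⟨k, hk⟩ := hc.exists_poly c
  obtain ⟨k', hk'⟩ := hc.exists_poly c⁻¹
  set P : ℚ[X] := pol ℚ g₁ g₂ ((g₁ * (1 + g₂) : ℤ) + 2 * r) s t with hP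
  -- the local condition over `F` for `P`
  have e1 : aeval θ (k ^ 2 * P) = x := by
    rw [map_mul, map_pow, hk, hα]
  have e2 : aeval θ (k' ^ 2 * (k ^ 2 * P)) = aeval θ P := by
    rw [map_mul, map_pow, hk', e1, hα, ← mul_assoc, ← mul_pow, inv_mul_cancel₀ hc0, one_pow, one_mul]
  have e0 : aeval ((D : L) * θ) ((k ^ 2 * P).comp (C ((D : ℚ)⁻¹) * X)) = x := by
    have h1 : aeval ((D : L) * θ) (C ((D : ℚ)⁻¹) * X) = θ := by
      rw [map_mul, aeval_C, aeval_X, map_inv₀, map_intCast, ← mul_assoc,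
        inv_mul_cancel₀ hDL, one_mul]
    rw [aeval_comp, h1, e1]
  have h0 := twist_pl hD0 hD (hPL _ e0)
  have ecomp : (((k ^ 2 * P).comp (C ((D : ℚ)⁻¹) * X)).map (algebraMap ℚ F)).comp
      (C (D : F) * X) = (k ^ 2 * P).map (algebraMap ℚ F) := by
    have h1 : (C (D : F) * X : F[X]) = (C (D : ℚ) * X : ℚ[X]).map (algebraMap ℚ F) := by
      simp
    rw [h1, ← Polynomial.map_comp, comp_assoc]
    congr 1
    have h2 : (C ((D : ℚ)⁻¹) * X : ℚ[X]).comp (C (D : ℚ) * X) = X := by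
      simp only [mul_comp, C_comp, X_comp]
      rw [← mul_assoc, ← C_mul, inv_mul_cancel₀ hDQ, C_1, one_mul]
    rw [h2, comp_X]
  rw [ecomp] at h0
  have h3 := plt_sq (k'.map (algebraMap ℚ F)) h0
  rw [← Polynomial.map_pow, ← Polynomial.map_mul] at h3
  have h4 := plt_congr (cast_congr hc F e2) h3
  rw [hP, pol_map] at h4
  have hr2 : v ((((g₁ * (1 + g₂) : ℤ) : ℚ) + 2 * r : ℚ) : F) ≤ 1 := by
    push_cast
    refine (v.map_add _ _).trans (max_le ?_ ?_)
    · have := v_int v (g₁ * (1 + g₂))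
      push_cast at this
      exact this
    · rw [map_mul]
      exact mul_le_one' hv.le (v_rat v hv r hr)
  have h5 : (Even g₁ ∧ Even g₂) ∨ ((4 : ℤ) ∣ 2 * g₁ - (1 - a) ∧ (4 : ℤ) ∣ 2 * g₂ - (3 - a)) := by
    rcases he with he | he
    · exact cal_one v hv hv2 haO hab he g₁ g₂ hr2 (v_rat v hv s hs) (v_rat v hv t ht) h4
    · exact cal_two v hv hv2 ha hbO hres he g₁ g₂ hr2 (v_rat v hv s hs) (v_rat v hv t ht) h4
  -- over `ℚ_2`
  have hnd : ∀ q : ℚ, Odd q.den → ‖(q : ℚ_[2])‖ ≤ 1 := by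
    intro q hq
    apply Padic.norm_rat_le_one
    intro h
    exact (Nat.not_even_iff_odd.2 hq) (even_iff_two_dvd.2 h)
  have h6 := pt2 a b haO hab g₁ g₂ ((((g₁ * (1 + g₂) : ℤ) : ℚ) + 2 * r : ℚ) : ℚ_[2]) s t (by
    have e : ((((g₁ * (1 + g₂) : ℤ) : ℚ) + 2 * r : ℚ) : ℚ_[2]) - ((g₁ * (1 + g₂) : ℤ) : ℚ_[2]) =
        2 * (r : ℚ_[2]) := by
      push_cast
      ring
    rw [e, norm_mul]
    have e3 : ‖(2 : ℚ_[2])‖ = 1 / 2 := by
      have := Padic.norm_p (p := 2)
      rw [Nat.cast_ofNat] at this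
      rw [this]
      norm_num
    rw [e3]
    have := hnd r hr
    linarith) (hnd s hs) (hnd t ht) h5
  rw [← pol_map, ← hP] at h6
  intro h' hh'
  have h7 : PL ℚ_[2] a b ((k.map (algebraMap ℚ ℚ_[2])) ^ 2 * P.map (algebraMap ℚ ℚ_[2])) :=
    Pool.Agent.N951.PV.pl_sq _ h6
  rw [← Polynomial.map_pow, ← Polynomial.map_mul] at h7
  exact Pool.Agent.N922.PQ.pl_congr (cast_congr hc ℚ_[2] (e1.trans hh'.symm)) h7

end Pool.Agent.H71.SH
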